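import Mathlib

set_option autoImplicit false

/-!
A computable copy of the finite-cofinite algebra whose ideal of finite sets is not computable.
The copy is built from the true stages of an injective enumeration `g`.
-/

namespace Run7.h538.Intal

open Nat.Partrec (Code)
open Nat.Partrec.Code

/-- the `c`-th program halts on input `0` within `k` steps -/
def halts (k c : ℕ) : Bool := (evaln k (Denumerable.ofNat Code c) 0).isSome

/-- an injective primitive recursive function; `2 c + 1` is a value iff program `c` halts on `0` -/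
def g : ℕ → ℕ
  | 0 => 0
  | s + 1 =>
    if halts s.unpair.1 s.unpair.2 = true ∧ halts (s.unpair.1 - 1) s.unpair.2 = false then
      2 * s.unpair.2 + 1
    else 2 * s + 2

lemma halts_mono {k k' c : ℕ} (h : k ≤ k') (hk : halts k c = true) : halts k' c = true := by
  unfold halts at *
  obtain ⟨x, hx⟩ := Option.isSome_iff_exists.1 hk
  exact Option.isSome_iff_exists.2 ⟨x, evaln_mono h hx⟩

lemma g_pos {u : ℕ} (h : 0 < u) : g 0 < g u := by
  obtain ⟨s, rfl⟩ := Nat.exists_eq_succ_of_ne_zero h.ne'
  simp only [g]
  split_ifs <;> omega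

lemma g_inj : Function.Injective g := by
  intro a b hab
  rcases Nat.eq_zero_or_pos a with rfl | ha
  · rcases Nat.eq_zero_or_pos b with rfl | hb
    · rfl
    · exact absurd hab (g_pos hb).ne
  · rcases Nat.eq_zero_or_pos b with rfl | hb
    · exact absurd hab.symm (g_pos ha).ne
    · obtain ⟨s, rfl⟩ := Nat.exists_eq_succ_of_ne_zero ha.ne'
      obtain ⟨t, rfl⟩ := Nat.exists_eq_succ_of_ne_zero hb.ne'
      simp only [g] at hab
      split_ifs at hab with h1 h2 h2
      · have hc : s.unpair.2 = t.unpair.2 := by omega
        have hk : s.unpair.1 = t.unpair.1 := by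
          rcases lt_trichotomy s.unpair.1 t.unpair.1 with h | h | h
          · have := halts_mono (show s.unpair.1 ≤ t.unpair.1 - 1 by omega) h1.1
            rw [hc, h2.2] at this
            exact absurd this (by simp)
          · exact h
          · have := halts_mono (show t.unpair.1 ≤ s.unpair.1 - 1 by omega) h2.1
            rw [← hc, h1.2] at this
            exact absurd this (by simp)
        have : s = t := by
          rw [← Nat.pair_unpair s, ← Nat.pair_unpair t, hc, hk]
        rw [this]
      · omega
      · omega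
      · have : s = t := by omega
        rw [this]

/-- program `c` halts on `0` iff `2 c + 1` is a value of `g` -/
lemma halt_iff (c : Code) : (eval c 0).Dom ↔ ∃ s, g s = 2 * Encodable.encode c + 1 := by
  constructor
  · intro h
    obtain ⟨x, hx⟩ := Part.dom_iff_mem.1 h
    obtain ⟨k, hk⟩ := evaln_complete.1 hx
    have hex : ∃ k, halts k (Encodable.encode c) = true := by
      refine ⟨k, ?_⟩
      unfold halts
      rw [Denumerable.ofNat_encode]
      exact Option.isSome_iff_exists.2 ⟨x, hk⟩
    classical
    let k0 := Nat.find hex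
    have h0 : halts k0 (Encodable.encode c) = true := Nat.find_spec hex
    have hk0 : k0 ≠ 0 := by
      intro h
      rw [h] at h0
      simp [halts, evaln] at h0
    have h1 : halts (k0 - 1) (Encodable.encode c) = false := by
      have := Nat.find_min hex (show k0 - 1 < Nat.find hex by show k0 - 1 < k0; omega)
      simpa using this
    refine ⟨Nat.pair k0 (Encodable.encode c) + 1, ?_⟩
    simp only [g, Nat.unpair_pair]
    rw [if_pos ⟨h0, h1⟩]
  · rintro ⟨s, hs⟩
    rcases Nat.eq_zero_or_pos s with rfl | hs0
    · simp [g] at hs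
    · obtain ⟨t, rfl⟩ := Nat.exists_eq_succ_of_ne_zero hs0.ne'
      simp only [g] at hs
      split_ifs at hs with h
      · have hc : t.unpair.2 = Encodable.encode c := by omega
        have := h.1
        rw [hc] at this
        unfold halts at this
        rw [Denumerable.ofNat_encode] at this
        obtain ⟨x, hx⟩ := Option.isSome_iff_exists.1 this
        exact Part.dom_iff_mem.2 ⟨x, evaln_complete.2 ⟨_, hx⟩⟩
      · omega

/-- `i` is a descendant of `j` -/
def D (j i : ℕ) : Prop := j ≤ i ∧ ∀ u, j < u → u ≤ i → g j < g u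

lemma D_self (i : ℕ) : D i i := ⟨le_rfl, fun u h1 h2 => absurd h1 (by omega)⟩

lemma D_zero (i : ℕ) : D 0 i := ⟨Nat.zero_le _, fun _ h _ => g_pos h⟩

noncomputable instance (j i : ℕ) : Decidable (D j i) := Classical.dec _

/-- the nearest ancestor below `B` -/
lemma anc {B : ℕ} (hB : 0 < B) (i : ℕ) : ∃ a < B, ∀ j < B, (D j i ↔ D j a) := by
  classical
  rcases lt_or_ge i B with hi | hi
  · exact ⟨i, hi, fun _ _ => Iff.rfl⟩
  · -- largest `a < B` with `D a i`
    have hex : ∃ a, a < B ∧ D a i ∧ ∀ b < B, D b i → b ≤ a := by
      have hne : ((Finset.range B).filter (fun a => D a i)).Nonempty :=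
        ⟨0, by simp [hB, D_zero]⟩
      refine ⟨((Finset.range B).filter (fun a => D a i)).max' hne, ?_, ?_, ?_⟩
      · have := Finset.max'_mem _ hne
        simp only [Finset.mem_filter, Finset.mem_range] at this
        exact this.1
      · have := Finset.max'_mem _ hne
        simp only [Finset.mem_filter, Finset.mem_range] at this
        exact this.2
      · intro b hb hbi
        exact Finset.le_max' _ _ (by simp [hb, hbi])
    obtain ⟨a, haB, hai, hmax⟩ := hex
    refine ⟨a, haB, fun j hj => ⟨fun hji => ?_, fun hja => ?_⟩⟩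
    · exact ⟨hmax j hj hji, fun u h1 h2 => hji.2 u h1 (by have := hai.1; omega)⟩
    · refine ⟨hja.1.trans hai.1, fun u h1 h2 => ?_⟩
      rcases le_or_gt u a with hu | hu
      · exact hja.2 u h1 hu
      · have h3 := hai.2 u hu h2
        rcases hja.1.lt_or_eq with h | h
        · exact (hja.2 a h le_rfl).trans h3
        · rw [h]; exact h3

/-- the ancestors of `i` among the bits of `n` -/
noncomputable def S (n i : ℕ) : Finset ℕ :=
  (Finset.range (i + 1)).filter (fun j => n.testBit j = true ∧ D j i)

lemma mem_S {n i j : ℕ} : j ∈ S n i ↔ n.testBit j = true ∧ D j i := by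
  unfold S
  simp only [Finset.mem_filter, Finset.mem_range]
  constructor
  · rintro ⟨-, h⟩; exact h
  · intro h
    refine ⟨?_, h⟩
    have := h.2.1
    omega

/-- the set coded by `n` -/
def X (n : ℕ) : Set ℕ := {i | Odd (S n i).card}

lemma mem_X {n i : ℕ} : i ∈ X n ↔ Odd (S n i).card := Iff.rfl

lemma testBit_big {n B j : ℕ} (h : n < 2 ^ B) (hj : B ≤ j) : n.testBit j = false :=
  Nat.testBit_lt_two_pow (h.trans_le (Nat.pow_le_pow_right (by norm_num) hj))

/-- `Z` is determined below `B` -/
def Det (B : ℕ) (Z : Set ℕ) : Prop :=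
  ∀ i a, a < B → (∀ j < B, (D j i ↔ D j a)) → (i ∈ Z ↔ a ∈ Z)

lemma det_X {n B : ℕ} (h : n < 2 ^ B) : Det B (X n) := by
  intro i a ha hia
  have : S n i = S n a := by
    ext j
    rw [mem_S, mem_S]
    constructor
    · rintro ⟨h1, h2⟩
      have hj : j < B := by
        by_contra hj
        rw [testBit_big h (by omega)] at h1
        exact absurd h1 (by simp)
      exact ⟨h1, (hia j hj).1 h2⟩
    · rintro ⟨h1, h2⟩
      have hj : j < B := by
        by_contra hj
        rw [testBit_big h (by omega)] at h1
        exact absurd h1 (by simp)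
      exact ⟨h1, (hia j hj).2 h2⟩
  rw [mem_X, mem_X, this]

/-- triangular system -/
lemma tri (B : ℕ) (z : ℕ → Prop) : ∃ r < 2 ^ B, ∀ i < B, (i ∈ X r ↔ z i) := by
  classical
  induction B with
  | zero => exact ⟨0, by norm_num, fun i hi => absurd hi (by omega)⟩
  | succ B ih =>
    obtain ⟨r, hr, hri⟩ := ih
    by_cases hB : (B ∈ X r ↔ z B)
    · refine ⟨r, hr.trans (Nat.pow_lt_pow_right (by norm_num) (by omega)), fun i hi => ?_⟩
      rcases Nat.lt_succ_iff_lt_or_eq.1 hi with h | rfl
      · exact hri i h
      · exact hB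
    · refine ⟨2 ^ B + r, by rw [pow_succ]; omega, fun i hi => ?_⟩
      rcases Nat.lt_succ_iff_lt_or_eq.1 hi with h | rfl
      · rw [← hri i h, mem_X, mem_X]
        have : S (2 ^ B + r) i = S r i := by
          ext j
          rw [mem_S, mem_S]
          constructor
          · rintro ⟨h1, h2⟩
            rw [Nat.testBit_two_pow_add_gt (by have := h2.1; omega)] at h1
            exact ⟨h1, h2⟩
          · rintro ⟨h1, h2⟩
            rw [Nat.testBit_two_pow_add_gt (by have := h2.1; omega)]
            exact ⟨h1, h2⟩
        rw [this]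
      · have hbit : r.testBit i = false := testBit_big hr le_rfl
        have hS : S (2 ^ i + r) i = insert i (S r i) := by
          ext j
          rw [Finset.mem_insert, mem_S, mem_S]
          constructor
          · rintro ⟨h1, h2⟩
            rcases h2.1.lt_or_eq with h | h
            · rw [Nat.testBit_two_pow_add_gt h] at h1
              exact Or.inr ⟨h1, h2⟩
            · exact Or.inl h
          · rintro (rfl | ⟨h1, h2⟩)
            · rw [Nat.testBit_two_pow_add_eq, hbit]
              exact ⟨rfl, D_self _⟩
            · rcases h2.1.lt_or_eq with h | h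
              · rw [Nat.testBit_two_pow_add_gt h]
                exact ⟨h1, h2⟩
              · rw [h, hbit] at h1
                exact absurd h1 (by simp)
        have hnot : i ∉ S r i := by
          rw [mem_S, hbit]
          simp
        rw [mem_X, hS, Finset.card_insert_of_notMem hnot, Nat.odd_add_one, ← mem_X]
        tauto

lemma X_inj : Function.Injective X := by
  intro m n hmn
  apply Nat.eq_of_testBit_eq
  intro i
  induction i using Nat.strong_induction_on with
  | _ i ih =>
    have hi : i ∈ X m ↔ i ∈ X n := by rw [hmn]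
    rw [mem_X, mem_X] at hi
    cases h1 : m.testBit i <;> cases h2 : n.testBit i
    · rfl
    · exfalso
      have hS : S n i = insert i (S m i) := by
        ext j
        rw [Finset.mem_insert, mem_S, mem_S]
        constructor
        · rintro ⟨h3, h4⟩
          rcases h4.1.lt_or_eq with h | h
          · exact Or.inr ⟨by rw [ih j h]; exact h3, h4⟩
          · exact Or.inl h
        · rintro (rfl | ⟨h3, h4⟩)
          · exact ⟨h2, D_self _⟩
          · rcases h4.1.lt_or_eq with h | h
            · exact ⟨by rw [← ih j h]; exact h3, h4⟩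
            · rw [h, h1] at h3
              exact absurd h3 (by simp)
      have hnot : i ∉ S m i := by
        rw [mem_S, h1]; simp
      rw [hS, Finset.card_insert_of_notMem hnot, Nat.odd_add_one] at hi
      tauto
    · exfalso
      have hS : S m i = insert i (S n i) := by
        ext j
        rw [Finset.mem_insert, mem_S, mem_S]
        constructor
        · rintro ⟨h3, h4⟩
          rcases h4.1.lt_or_eq with h | h
          · exact Or.inr ⟨by rw [← ih j h]; exact h3, h4⟩
          · exact Or.inl h
        · rintro (rfl | ⟨h3, h4⟩)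
          · exact ⟨h1, D_self _⟩
          · rcases h4.1.lt_or_eq with h | h
            · exact ⟨by rw [ih j h]; exact h3, h4⟩
            · rw [h, h2] at h3
              exact absurd h3 (by simp)
      have hnot : i ∉ S n i := by
        rw [mem_S, h2]; simp
      rw [hS, Finset.card_insert_of_notMem hnot, Nat.odd_add_one] at hi
      tauto
    · rfl

/-- true stages are unbounded -/
lemma exists_true (N : ℕ) : ∃ t, N ≤ t ∧ ∀ u, t < u → g t < g u := by
  classical
  have hex : ∃ v, ∃ t, N ≤ t ∧ g t = v := ⟨g N, N, le_rfl, rfl⟩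
  obtain ⟨t, ht, hv⟩ := Nat.find_spec hex
  refine ⟨t, ht, fun u hu => ?_⟩
  have h1 : g t ≤ g u := by
    rw [hv]
    exact Nat.find_min' hex ⟨u, by omega, rfl⟩
  rcases h1.lt_or_eq with h | h
  · exact h
  · exact absurd (g_inj h) (by omega)

/-- a set that is constant from `N` on is coded -/
lemma exists_code_of_const {Z : Set ℕ} {N : ℕ} (h : ∀ i, N ≤ i → (i ∈ Z ↔ N ∈ Z)) :
    ∃ n, X n = Z := by
  obtain ⟨t, htN, ht⟩ := exists_true N
  have hdet : Det (t + 1) Z := by
    intro i a ha hia
    rcases lt_or_ge i (t + 1) with hi | hi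
    · have h1 : i ≤ a := ((hia i hi).1 (D_self i)).1
      have h2 : a ≤ i := ((hia a ha).2 (D_self a)).1
      rw [le_antisymm h1 h2]
    · have h1 : D t i := ⟨by omega, fun u hu _ => ht u hu⟩
      have h2 : t ≤ a := ((hia t (by omega)).1 h1).1
      have h3 : a = t := by omega
      subst h3
      rw [h i (by omega), h a htN]
  obtain ⟨r, hr, hri⟩ := tri (t + 1) (· ∈ Z)
  refine ⟨r, ?_⟩
  ext i
  obtain ⟨a, ha, hia⟩ := anc (show 0 < t + 1 by omega) i
  rw [det_X hr i a ha hia, hdet i a ha hia]
  exact hri a ha

/-- every coded set is eventually constant -/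
lemma const_of_code (n : ℕ) : ∃ N, ∀ i, N ≤ i → (i ∈ X n ↔ N ∈ X n) := by
  obtain ⟨t, htn, ht⟩ := exists_true (n + 1)
  refine ⟨t, fun i hi => ?_⟩
  have hn : n < 2 ^ (n + 1) := n.lt_two_pow_self.trans (Nat.pow_lt_pow_right (by norm_num) (by omega))
  have : S n i = S n t := by
    ext j
    rw [mem_S, mem_S]
    constructor
    · rintro ⟨h1, h2⟩
      have hj : j < n + 1 := by
        by_contra hj
        rw [testBit_big hn (by omega)] at h1
        exact absurd h1 (by simp)
      exact ⟨h1, by omega, fun u hu hut => h2.2 u hu (by omega)⟩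
    · rintro ⟨h1, h2⟩
      have hj : j < n + 1 := by
        by_contra hj
        rw [testBit_big hn (by omega)] at h1
        exact absurd h1 (by simp)
      refine ⟨h1, by omega, fun u hu hut => ?_⟩
      rcases le_or_gt u t with h3 | h3
      · exact h2.2 u hu h3
      · exact (h2.2 t (by omega) le_rfl).trans (ht u h3)
  rw [mem_X, mem_X, this]

/-- the finite-cofinite algebra on `ℕ` -/
def FC : BooleanSubalgebra (Set ℕ) where
  carrier := {Z | Z.Finite ∨ Zᶜ.Finite}
  supClosed' := by
    rintro A hA B hB
    simp only [Set.mem_ofPred_eq, Set.sup_eq_union] at *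
    rcases hA with hA | hA
    · rcases hB with hB | hB
      · exact Or.inl (hA.union hB)
      · exact Or.inr (hB.subset (by intro x hx; simp at hx ⊢; tauto))
    · exact Or.inr (hA.subset (by intro x hx; simp at hx ⊢; tauto))
  infClosed' := by
    rintro A hA B hB
    simp only [Set.mem_ofPred_eq, Set.inf_eq_inter] at *
    rcases hA with hA | hA
    · exact Or.inl (hA.subset Set.inter_subset_left)
    · rcases hB with hB | hB
      · exact Or.inl (hB.subset Set.inter_subset_right)
      · refine Or.inr ?_
        rw [Set.compl_inter]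
        exact hA.union hB
  compl_mem' := by
    rintro A hA
    simp only [Set.mem_ofPred_eq, compl_compl] at *
    tauto
  bot_mem' := by simp

lemma mem_FC {Z : Set ℕ} : Z ∈ FC ↔ Z.Finite ∨ Zᶜ.Finite := Iff.rfl

lemma mem_FC_iff_const {Z : Set ℕ} : Z ∈ FC ↔ ∃ N, ∀ i, N ≤ i → (i ∈ Z ↔ N ∈ Z) := by
  rw [mem_FC]
  constructor
  · rintro (h | h)
    · obtain ⟨N, hN⟩ := h.bddAbove
      refine ⟨N + 1, fun i hi => ?_⟩
      have h1 : i ∉ Z := fun hiZ => absurd (hN hiZ) (by omega)
      have h2 : N + 1 ∉ Z := fun hiZ => absurd (hN hiZ) (by omega)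
      simp [h1, h2]
    · obtain ⟨N, hN⟩ := h.bddAbove
      refine ⟨N + 1, fun i hi => ?_⟩
      have h1 : i ∈ Z := by
        by_contra hiZ
        exact absurd (hN hiZ) (by omega)
      have h2 : N + 1 ∈ Z := by
        by_contra hiZ
        exact absurd (hN hiZ) (by omega)
      simp [h1, h2]
  · rintro ⟨N, hN⟩
    by_cases h : N ∈ Z
    · right
      refine (Set.finite_Iio N).subset fun i hi => ?_
      by_contra hlt
      simp only [Set.mem_Iio, not_lt] at hlt
      exact hi ((hN i hlt).2 h)
    · left
      refine (Set.finite_Iio N).subset fun i hi => ?_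
      by_contra hlt
      simp only [Set.mem_Iio, not_lt] at hlt
      exact h ((hN i hlt).1 hi)

/-- the presentation -/
noncomputable def e : ℕ ≃ FC :=
  Equiv.ofBijective (fun n => ⟨X n, mem_FC_iff_const.2 (const_of_code n)⟩)
    ⟨fun m n h => X_inj (congrArg Subtype.val h), fun Z => by
      obtain ⟨N, hN⟩ := mem_FC_iff_const.1 Z.2
      obtain ⟨n, hn⟩ := exists_code_of_const hN
      exact ⟨n, Subtype.ext hn⟩⟩

lemma coe_e (n : ℕ) : ((e n : FC) : Set ℕ) = X n := rfl

end Run7.h538.Intal
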