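import Pool.Agent.Run7.h538.Intal

set_option autoImplicit false

/-! Computability of the presentation and the refutation. -/

namespace Run7.h538.Intal

open Nat.Partrec (Code)
open Nat.Partrec.Code

lemma primrec_halts : Primrec₂ halts := by
  unfold halts
  exact Primrec.option_isSome.comp (Code.primrec_evaln.comp
    ((Primrec.fst.pair ((Primrec.ofNat Code).comp Primrec.snd)).pair (Primrec.const 0)))

lemma primrec_g : Primrec g := by
  have h : Primrec (fun n : ℕ => Nat.casesOn (motive := fun _ => ℕ) n 0 (fun s =>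
      if halts s.unpair.1 s.unpair.2 = true ∧ halts (s.unpair.1 - 1) s.unpair.2 = false then
        2 * s.unpair.2 + 1
      else 2 * s + 2)) := by
    refine Primrec.nat_casesOn₁ 0 ?_
    refine Primrec.ite ?_ ?_ ?_
    · refine PrimrecPred.and ?_ ?_
      · exact Primrec.eq.comp (primrec_halts.comp (Primrec.fst.comp Primrec.unpair)
          (Primrec.snd.comp Primrec.unpair)) (Primrec.const true)
      · exact Primrec.eq.comp (primrec_halts.comp
          (Primrec.nat_sub.comp (Primrec.fst.comp Primrec.unpair) (Primrec.const 1))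
          (Primrec.snd.comp Primrec.unpair)) (Primrec.const false)
    · exact Primrec.nat_double_succ.comp (Primrec.snd.comp Primrec.unpair)
    · exact Primrec.nat_add.comp Primrec.nat_double (Primrec.const 2)
  exact h.of_eq fun n => by cases n <;> simp [g]

/-- bounded quantification with parameters -/
lemma primrec_forall_lt {α : Type*} [Primcodable α] {R : ℕ → α → Prop} {f : α → ℕ}
    (hR : PrimrecRel R) (hf : Primrec f) : PrimrecPred (fun a => ∀ x < f a, R x a) :=
  (hR.forall_mem_list.comp (Primrec.list_range.comp hf) Primrec.id).of_eq (by simp)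

lemma primrec_D : PrimrecRel D := by
  have h1 : PrimrecPred (fun p : ℕ × ℕ => p.1 ≤ p.2) := Primrec.nat_le
  have h2 : PrimrecPred (fun p : ℕ × ℕ => ∀ u < p.2 + 1, (¬ (p.1 < u)) ∨ g p.1 < g u) := by
    refine primrec_forall_lt (R := fun u p => (¬ (p.1 < u)) ∨ g p.1 < g u) ?_
      (Primrec.succ.comp Primrec.snd)
    refine PrimrecPred.or (PrimrecPred.not ?_) ?_
    · exact Primrec.nat_lt.comp (Primrec.fst.comp Primrec.snd) Primrec.fst
    · exact Primrec.nat_lt.comp (primrec_g.comp (Primrec.fst.comp Primrec.snd))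
        (primrec_g.comp Primrec.fst)
  refine (h1.and h2).of_eq ?_
  rintro ⟨j, i⟩
  simp only [D]
  constructor
  · rintro ⟨h3, h4⟩
    refine ⟨h3, fun u hu hui => ?_⟩
    rcases h4 u (by omega) with h | h
    · exact absurd hu h
    · exact h
  · rintro ⟨h3, h4⟩
    refine ⟨h3, fun u hu => ?_⟩
    by_cases hju : j < u
    · exact Or.inr (h4 u hju (by omega))
    · exact Or.inl hju

lemma primrec_pow : Primrec₂ (fun a b : ℕ => a ^ b) :=
  Primrec₂.unpaired'.1 Nat.Primrec.pow

lemma primrec_testBit : PrimrecRel (fun n j : ℕ => n.testBit j = true) := by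
  have h : PrimrecPred (fun p : ℕ × ℕ => p.1 / 2 ^ p.2 % 2 = 1) :=
    Primrec.eq.comp (Primrec.nat_mod.comp (Primrec.nat_div.comp Primrec.fst
      (primrec_pow.comp (Primrec.const 2) Primrec.snd)) (Primrec.const 2)) (Primrec.const 1)
  refine h.of_eq ?_
  rintro ⟨n, j⟩
  simp [Nat.testBit_eq_decide_div_mod_eq]

lemma primrec_X : PrimrecRel (fun n i : ℕ => i ∈ X n) := by
  classical
  have hR : PrimrecRel (fun (j : ℕ) (p : ℕ × ℕ) => p.1.testBit j = true ∧ D j p.2) := by
    refine PrimrecPred.and ?_ ?_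
    · exact primrec_testBit.comp (Primrec.fst.comp Primrec.snd) Primrec.fst
    · exact primrec_D.comp Primrec.fst (Primrec.snd.comp Primrec.snd)
  have hlen : Primrec (fun p : ℕ × ℕ => ((List.range (p.2 + 1)).filter
      (fun j => decide (p.1.testBit j = true ∧ D j p.2))).length) :=
    Primrec.list_length.comp (hR.listFilter.comp
      (Primrec.list_range.comp (Primrec.succ.comp Primrec.snd)) Primrec.id)
  have h : PrimrecPred (fun p : ℕ × ℕ => ((List.range (p.2 + 1)).filter
      (fun j => decide (p.1.testBit j = true ∧ D j p.2))).length % 2 = 1) :=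
    Primrec.eq.comp (Primrec.nat_mod.comp hlen (Primrec.const 2)) (Primrec.const 1)
  refine h.of_eq ?_
  rintro ⟨n, i⟩
  simp only
  rw [mem_X, Nat.odd_iff]
  have : (S n i).card = ((List.range (i + 1)).filter
      (fun j => decide (n.testBit j = true ∧ D j i))).length := by
    have hnd : ((List.range (i + 1)).filter
      (fun j => decide (n.testBit j = true ∧ D j i))).Nodup := List.nodup_range.filter _
    rw [← List.toFinset_card_of_nodup hnd]
    congr 1
    ext j
    simp [S]
  rw [this]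

lemma symm_eq_of {Z : FC} {B r : ℕ} (hB : 0 < B) (hZ : Det B (Z : Set ℕ))
    (hr : ∀ i < B, (i ∈ X r ↔ i ∈ (Z : Set ℕ)))
    (hmin : ∀ r' < r, ¬ ∀ i < B, (i ∈ X r' ↔ i ∈ (Z : Set ℕ))) : e.symm Z = r := by
  rw [Equiv.symm_apply_eq]
  apply Subtype.ext
  rw [coe_e]
  obtain ⟨r0, hr0, h0⟩ := tri B (· ∈ (Z : Set ℕ))
  have hle : r ≤ r0 := by
    by_contra h
    exact hmin r0 (by omega) h0
  have hdet : Det B (X r) := det_X (hle.trans_lt hr0)
  ext i
  obtain ⟨a, ha, hia⟩ := anc hB i
  rw [hZ i a ha hia, hdet i a ha hia]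
  exact (hr a ha).symm

/-- a Boolean operation on codes is computable -/
lemma computable_op (op : Prop → Prop → Prop) (F : FC → FC → FC)
    (hF : ∀ (A B : FC) (i : ℕ), i ∈ (F A B : Set ℕ) ↔ op (i ∈ (A : Set ℕ)) (i ∈ (B : Set ℕ)))
    (hop : ∀ {p q : ℕ × ℕ × ℕ × ℕ → Prop}, PrimrecPred p → PrimrecPred q →
      PrimrecPred (fun a => op (p a) (q a))) :
    Computable₂ (fun m n : ℕ => e.symm (F (e m) (e n))) := by
  classical
  let P : ℕ × ℕ → ℕ → Prop := fun p r =>
    ∀ i < p.1 + p.2 + 1, (i ∈ X r ↔ op (i ∈ X p.1) (i ∈ X p.2))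
  have hP : PrimrecPred (fun q : (ℕ × ℕ) × ℕ => P q.1 q.2) := by
    refine primrec_forall_lt (R := fun i (q : (ℕ × ℕ) × ℕ) =>
      (i ∈ X q.2 ↔ op (i ∈ X q.1.1) (i ∈ X q.1.2))) ?_ ?_
    · -- the equivalence
      have h1 : PrimrecPred (fun q : ℕ × (ℕ × ℕ) × ℕ => q.1 ∈ X q.2.2) :=
        primrec_X.comp (Primrec.snd.comp Primrec.snd) Primrec.fst
      have h2 : PrimrecPred (fun q : ℕ × (ℕ × ℕ) × ℕ => op (q.1 ∈ X q.2.1.1) (q.1 ∈ X q.2.1.2)) := by
        have h3 : PrimrecPred (fun q : ℕ × ℕ × ℕ × ℕ => q.1 ∈ X q.2.1) :=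
          primrec_X.comp (Primrec.fst.comp Primrec.snd) Primrec.fst
        have h4 : PrimrecPred (fun q : ℕ × ℕ × ℕ × ℕ => q.1 ∈ X q.2.2.1) :=
          primrec_X.comp (Primrec.fst.comp (Primrec.snd.comp Primrec.snd)) Primrec.fst
        have h5 := hop h3 h4
        exact h5.comp (f := fun q : ℕ × (ℕ × ℕ) × ℕ => (q.1, q.2.1.1, q.2.1.2, q.2.2))
          (Primrec.fst.pair ((Primrec.fst.comp (Primrec.fst.comp Primrec.snd)).pair
            ((Primrec.snd.comp (Primrec.fst.comp Primrec.snd)).pair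
              (Primrec.snd.comp Primrec.snd))))
      have h6 : PrimrecPred (fun q : ℕ × (ℕ × ℕ) × ℕ =>
          ((q.1 ∈ X q.2.2 ∧ op (q.1 ∈ X q.2.1.1) (q.1 ∈ X q.2.1.2)) ∨
            (¬ (q.1 ∈ X q.2.2) ∧ ¬ op (q.1 ∈ X q.2.1.1) (q.1 ∈ X q.2.1.2)))) :=
        (h1.and h2).or (h1.not.and h2.not)
      exact h6.of_eq fun q => (iff_iff_and_or_not_and_not).symm
    · exact Primrec.succ.comp (Primrec.nat_add.comp (Primrec.fst.comp Primrec.fst)
        (Primrec.snd.comp Primrec.fst))
  have hdet : ∀ m n : ℕ, Det (m + n + 1) ((F (e m) (e n) : FC) : Set ℕ) := by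
    intro m n i a ha hia
    rw [hF, hF, coe_e, coe_e]
    have hm : m < 2 ^ (m + n + 1) :=
      (Nat.lt_two_pow_self).trans (Nat.pow_lt_pow_right (by norm_num) (by omega))
    have hn : n < 2 ^ (m + n + 1) :=
      (Nat.lt_two_pow_self).trans (Nat.pow_lt_pow_right (by norm_num) (by omega))
    rw [det_X hm i a ha hia, det_X hn i a ha hia]
  have hex : ∀ p : ℕ × ℕ, ∃ r, P p r := by
    intro p
    obtain ⟨r, -, hr⟩ := tri (p.1 + p.2 + 1) (fun i => op (i ∈ X p.1) (i ∈ X p.2))
    exact ⟨r, hr⟩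
  have hfind := Computable.find (P := P) hP.computablePred hex
  refine Computable₂.mk (hfind.of_eq ?_)
  rintro ⟨m, n⟩
  symm
  refine symm_eq_of (B := m + n + 1) (by omega) (hdet m n) ?_ ?_
  · have := Nat.find_spec (hex (m, n))
    intro i hi
    rw [hF, coe_e, coe_e]
    exact this i hi
  · intro r' hr' hc
    refine Nat.find_min (hex (m, n)) hr' ?_
    intro i hi
    rw [hc i hi, hF, coe_e, coe_e]

lemma computable_sup : Computable₂ (fun m n : ℕ => e.symm (e m ⊔ e n)) :=
  computable_op (fun p q => p ∨ q) (fun A B => A ⊔ B) (fun A B i => by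
    rw [BooleanSubalgebra.val_sup]; rfl) (fun hp hq => hp.or hq)

lemma computable_inf : Computable₂ (fun m n : ℕ => e.symm (e m ⊓ e n)) :=
  computable_op (fun p q => p ∧ q) (fun A B => A ⊓ B) (fun A B i => by
    rw [BooleanSubalgebra.val_inf]; rfl) (fun hp hq => hp.and hq)

lemma computable_compl : Computable (fun n : ℕ => e.symm (e n)ᶜ) := by
  have h := computable_op (fun p _ => ¬ p) (fun A _ => Aᶜ) (fun A B i => by
    rw [BooleanSubalgebra.val_compl]; rfl) (fun hp _ => hp.not)
  exact h.comp Computable.id Computable.id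

end Run7.h538.Intal
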