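import Pool.Agent.Run7.h538.IntalComp

set_option autoImplicit false

/-! The refutation: no computable copy of `ω` presents this algebra. -/

namespace Run7.h538.Intal

open Nat.Partrec (Code)
open Nat.Partrec.Code

/-- the finite-cofinite sets are the finite unions of half-open intervals of `ℕ` -/
lemma mem_FC_iff_intal (W : Set ℕ) : W ∈ FC ↔ ∃ S : Finset ℕ, ∃ b : Bool,
    W = {x : ℕ | Xor' (b = true) (Odd (S.filter (fun s => s ≤ x)).card)} := by
  classical
  rw [mem_FC_iff_const]
  constructor
  · rintro ⟨N, hN⟩
    let T : Finset ℕ := (Finset.range (N + 1)).filter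
      (fun s => Xor' (s ∈ W) (s ≠ 0 ∧ s - 1 ∈ W))
    refine ⟨T, false, ?_⟩
    have key : ∀ x, Odd (T.filter (fun s => s ≤ x)).card ↔ x ∈ W := by
      intro x
      induction x with
      | zero =>
        by_cases h0 : 0 ∈ W
        · have : T.filter (fun s => s ≤ 0) = {0} := by
            ext s
            simp only [T, Finset.mem_filter, Finset.mem_range, Finset.mem_singleton]
            constructor
            · rintro ⟨-, h⟩; omega
            · rintro rfl
              refine ⟨⟨by omega, ?_⟩, le_rfl⟩
              simp [Xor', h0]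
          rw [this]
          simp [h0]
        · have : T.filter (fun s => s ≤ 0) = ∅ := by
            ext s
            simp only [T, Finset.mem_filter, Finset.mem_range, Finset.notMem_empty, iff_false]
            rintro ⟨⟨-, h⟩, hs⟩
            have hs0 : s = 0 := by omega
            subst hs0
            simp [Xor', h0] at h
          rw [this]
          simp [h0]
      | succ x ih =>
        have hsplit : T.filter (fun s => s ≤ x + 1) =
            if x + 1 ∈ T then insert (x + 1) (T.filter (fun s => s ≤ x))
            else T.filter (fun s => s ≤ x) := by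
          split_ifs with h
          · ext s
            simp only [Finset.mem_filter, Finset.mem_insert]
            constructor
            · rintro ⟨h1, h2⟩
              rcases h2.lt_or_eq with h3 | h3
              · exact Or.inr ⟨h1, by omega⟩
              · exact Or.inl h3
            · rintro (rfl | ⟨h1, h2⟩)
              · exact ⟨h, le_rfl⟩
              · exact ⟨h1, by omega⟩
          · ext s
            simp only [Finset.mem_filter]
            constructor
            · rintro ⟨h1, h2⟩
              rcases h2.lt_or_eq with h3 | h3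
              · exact ⟨h1, by omega⟩
              · subst h3; exact absurd h1 h
            · rintro ⟨h1, h2⟩
              exact ⟨h1, by omega⟩
        have hT : x + 1 ∈ T ↔ Xor' (x + 1 ∈ W) (x ∈ W) := by
          simp only [T, Finset.mem_filter, Finset.mem_range]
          constructor
          · rintro ⟨-, h⟩
            simpa using h
          · intro h
            refine ⟨?_, by simpa using h⟩
            by_contra hlt
            have h1 := hN x (by omega)
            have h2 := hN (x + 1) (by omega)
            rw [h1, h2] at h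
            unfold Xor' Xor at h
            tauto
        rw [hsplit]
        by_cases h : x + 1 ∈ T
        · rw [if_pos h, Finset.card_insert_of_notMem (by simp), Nat.odd_add_one, ih]
          rw [hT] at h
          unfold Xor' Xor at h
          tauto
        · rw [if_neg h, ih]
          rw [hT] at h
          unfold Xor' Xor at h
          tauto
    ext x
    show x ∈ W ↔ Xor' (false = true) (Odd (T.filter (fun s => s ≤ x)).card)
    rw [key x]
    simp [Xor']
  · rintro ⟨S, b, rfl⟩
    refine ⟨S.sup id, fun i hi => ?_⟩
    have h : ∀ i, S.sup id ≤ i → S.filter (fun s => s ≤ i) = S := by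
      intro i hi
      apply Finset.filter_true_of_mem
      intro s hs
      exact (Finset.le_sup (f := id) hs).trans hi
    show Xor' _ _ ↔ Xor' _ _
    rw [h i hi, h _ le_rfl]

lemma fin_iff (Z : FC) : (Z : Set ℕ).Finite ↔ {B : FC | B ≤ Z}.Finite := by
  constructor
  · intro h
    refine Set.Finite.of_finite_image (f := fun B : FC => (B : Set ℕ)) ?_
      (fun A _ B _ hAB => Subtype.ext hAB)
    refine h.finite_subsets.subset ?_
    rintro _ ⟨B, hB, rfl⟩
    exact hB
  · intro h
    by_contra hinf
    have hinf' : (Z : Set ℕ).Infinite := hinf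
    have hmem : ∀ i : ℕ, ({i} : Set ℕ) ∈ FC := fun i => Or.inl (Set.finite_singleton i)
    have hsub : (fun i : ℕ => (⟨{i}, hmem i⟩ : FC)) '' (Z : Set ℕ) ⊆ {B : FC | B ≤ Z} := by
      rintro _ ⟨i, hi, rfl⟩
      show ({i} : Set ℕ) ⊆ (Z : Set ℕ)
      simpa using hi
    have hinj : Set.InjOn (fun i : ℕ => (⟨{i}, hmem i⟩ : FC)) (Z : Set ℕ) := by
      intro i _ j _ hij
      have := congrArg Subtype.val hij
      simpa using this
    exact (hinf'.image hinj) (h.subset hsub)

/-- an isomorphism onto the finite-cofinite sets preserves finiteness -/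
lemma fin_invariant (ψ : FC → Set ℕ) (hinj : Function.Injective ψ)
    (hsup : ∀ a b, ψ (a ⊔ b) = ψ a ∪ ψ b)
    (hrange : ∀ W : Set ℕ, W ∈ Set.range ψ ↔ W ∈ FC) (Z : FC) :
    (Z : Set ℕ).Finite ↔ (ψ Z).Finite := by
  have hle : ∀ A B : FC, A ≤ B ↔ ψ A ⊆ ψ B := by
    intro A B
    rw [← sup_eq_right, ← Set.union_eq_right, ← hsup]
    exact hinj.eq_iff.symm
  let ψ' : FC → FC := fun A => ⟨ψ A, (hrange _).1 ⟨A, rfl⟩⟩
  have hψ' : Function.Bijective ψ' := by
    constructor
    · intro A B h
      exact hinj (congrArg Subtype.val h)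
    · intro W
      obtain ⟨A, hA⟩ := (hrange W).2 W.2
      exact ⟨A, Subtype.ext hA⟩
  have himg : ψ' '' {B : FC | B ≤ Z} = {B : FC | B ≤ ψ' Z} := by
    ext W
    constructor
    · rintro ⟨A, hA, rfl⟩
      exact (hle A Z).1 hA
    · intro hW
      obtain ⟨A, rfl⟩ := hψ'.2 W
      exact ⟨A, (hle A Z).2 hW, rfl⟩
  have h2 := fin_iff (ψ' Z)
  rw [fin_iff Z]
  change (ψ Z).Finite ↔ _ at h2
  rw [h2, ← himg]
  exact ⟨fun h => h.image _, fun h => h.of_finite_image hψ'.1.injOn⟩

/-- the set `{i | D t i}` is coded by `2 ^ t` -/
lemma X_two_pow (t : ℕ) : X (2 ^ t) = {i | D t i} := by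
  ext i
  show Odd (S (2 ^ t) i).card ↔ D t i
  by_cases h : D t i
  · have : S (2 ^ t) i = {t} := by
      ext j
      rw [mem_S, Nat.testBit_two_pow]
      simp only [decide_eq_true_eq, Finset.mem_singleton]
      constructor
      · rintro ⟨h1, -⟩; exact h1.symm
      · rintro rfl; exact ⟨rfl, h⟩
    rw [this]
    simp [h]
  · have : S (2 ^ t) i = ∅ := by
      ext j
      rw [mem_S, Nat.testBit_two_pow]
      simp only [decide_eq_true_eq, Finset.notMem_empty, iff_false]
      rintro ⟨rfl, h1⟩
      exact h h1
    rw [this]
    simp [h]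

/-- `t` is a true stage iff the set coded by `2 ^ t` is infinite -/
lemma true_iff (t : ℕ) : (∀ u, t < u → g t < g u) ↔ ¬ (X (2 ^ t)).Finite := by
  rw [X_two_pow]
  constructor
  · intro h hfin
    have : Set.Ici t ⊆ {i | D t i} := by
      intro i hi
      exact ⟨hi, fun u hu _ => h u hu⟩
    exact (Set.Ici_infinite t) (hfin.subset this)
  · intro h
    by_contra hc
    push Not at hc
    obtain ⟨u, hu, hgu⟩ := hc
    apply h
    refine (Set.finite_Iio u).subset ?_
    intro i hi
    by_contra hlt
    simp only [Set.mem_Iio, not_lt] at hlt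
    exact absurd (hi.2 u hu hlt) (by omega)

/-- the true stages of `g` are not computable -/
lemma not_computable_true : ¬ ComputablePred (fun t : ℕ => ∀ u, t < u → g t < g u) := by
  classical
  intro hT
  apply ComputablePred.halting_problem_not_re 0
  -- semidecision procedure for non-halting
  let Q : Code → ℕ → Prop := fun c t =>
    (∀ u, t < u → g t < g u) ∧ (2 * Encodable.encode c + 1 < g t ∧
      ∀ s < t + 1, ¬ g s = 2 * Encodable.encode c + 1)
  have hQ : ComputablePred (fun p : Code × ℕ => Q p.1 p.2) := by
    have h1 : ComputablePred (fun p : Code × ℕ => ∀ u, p.2 < u → g p.2 < g u) := by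
      obtain ⟨f, hf, hfe⟩ := ComputablePred.computable_iff.1 hT
      refine ComputablePred.computable_iff.2 ⟨fun p => f p.2, hf.comp Computable.snd, ?_⟩
      funext p
      exact congrFun hfe p.2
    have h2 : PrimrecPred (fun p : Code × ℕ => 2 * Encodable.encode p.1 + 1 < g p.2 ∧
        ∀ s < p.2 + 1, ¬ g s = 2 * Encodable.encode p.1 + 1) := by
      have hc : Primrec (fun p : Code × ℕ => 2 * Encodable.encode p.1 + 1) :=
        Primrec.nat_double_succ.comp (Primrec.encode.comp Primrec.fst)
      refine PrimrecPred.and ?_ ?_
      · exact Primrec.nat_lt.comp hc (primrec_g.comp Primrec.snd)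
      · refine primrec_forall_lt (R := fun s (p : Code × ℕ) =>
          ¬ g s = 2 * Encodable.encode p.1 + 1) ?_ (Primrec.succ.comp Primrec.snd)
        exact PrimrecPred.not (Primrec.eq.comp (primrec_g.comp Primrec.fst)
          (hc.comp Primrec.snd))
    obtain ⟨f1, hf1, he1⟩ := ComputablePred.computable_iff.1 h1
    obtain ⟨f2, hf2, he2⟩ := ComputablePred.computable_iff.1 h2.computablePred
    refine ComputablePred.computable_iff.2 ⟨fun p => f1 p && f2 p,
      Primrec.and.to_comp.comp hf1 hf2, ?_⟩
    funext p
    have e1 := congrFun he1 p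
    have e2 := congrFun he2 p
    simp only [eq_iff_iff] at e1 e2
    simp only [Q, eq_iff_iff, Bool.and_eq_true]
    exact and_congr e1 e2
  have hpart : Partrec (fun c : Code => Nat.rfind (fun t => Part.some (decide (Q c t)))) :=
    Partrec.rfind hQ.decide.partrec
  refine hpart.dom_re.of_eq fun c => ?_
  refine (Nat.rfind_dom (p := fun t => (Part.some (decide (Q c t)) : Part Bool))).trans ?_
  constructor
  · rintro ⟨t, ht, -⟩ hdom
    simp only [Part.mem_some_iff] at ht
    have hQt : Q c t := by simpa using ht.symm
    obtain ⟨h1, h2, h3⟩ := hQt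
    obtain ⟨s, hs⟩ := (halt_iff c).1 hdom
    rcases lt_or_ge s (t + 1) with h | h
    · exact h3 s h hs
    · have := h1 s (by omega)
      omega
  · intro hdom
    have hno : ∀ s, g s ≠ 2 * Encodable.encode c + 1 := fun s hs =>
      hdom ((halt_iff c).2 ⟨s, hs⟩)
    -- a true stage with large value
    obtain ⟨N, hN⟩ : ∃ N, ∀ s, N ≤ s → 2 * Encodable.encode c + 1 < g s := by
      have hfin : (g ⁻¹' Set.Iic (2 * Encodable.encode c + 1)).Finite :=
        (Set.finite_Iic _).preimage g_inj.injOn
      obtain ⟨N, hN⟩ := hfin.bddAbove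
      refine ⟨N + 1, fun s hs => ?_⟩
      by_contra hlt
      have := hN (show s ∈ g ⁻¹' Set.Iic (2 * Encodable.encode c + 1) by
        simp only [Set.mem_preimage, Set.mem_Iic]; omega)
      omega
    obtain ⟨t, htN, ht⟩ := exists_true N
    refine ⟨t, ?_, fun _ => by simp⟩
    simp only [Part.mem_some_iff]
    have : Q c t := ⟨ht, hN t htN, fun s _ => hno s⟩
    simp [this]

end Run7.h538.Intal
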