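import Pool.Agent.Run7.h538.K9Data

set_option autoImplicit false

/-! Soundness of the parity certificates. -/

namespace Run7.h538.K9

open Pool.Agent.Helper770.VanKampen

/-- sum of the values of `w` over the set bits -/
def bitSum (w : ℕ → ZMod 2) (n : ℕ) : ZMod 2 :=
  ∑ i ∈ Finset.range 729, if n.testBit i then w i else 0

lemma bitSum_zero (w : ℕ → ZMod 2) : bitSum w 0 = 0 := by
  simp [bitSum]

lemma zmod2_add_self (x : ZMod 2) : x + x = 0 := by
  revert x; decide

lemma bitSum_xor (w : ℕ → ZMod 2) (n k : ℕ) (hk : k < 729) :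
    bitSum w (n ^^^ 2 ^ k) = bitSum w n + w k := by
  have h1 : w k = ∑ i ∈ Finset.range 729, if i = k then w i else 0 := by
    rw [Finset.sum_ite_eq' (Finset.range 729) k w]
    simp [hk]
  rw [h1]
  unfold bitSum
  rw [← Finset.sum_add_distrib]
  apply Finset.sum_congr rfl
  intro i _
  rw [Nat.testBit_xor, Nat.testBit_two_pow]
  by_cases hik : i = k
  · subst hik
    cases n.testBit i <;> simp [zmod2_add_self]
  · have : ¬ k = i := fun h => hik h.symm
    simp [hik, this]

lemma fold_sum (w : ℕ → ZMod 2) (l : List ℕ) (h : ∀ k ∈ l, k < 729) :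
    bitSum w (fold l) = (l.map w).sum := by
  induction l with
  | nil => simp [fold, bitSum_zero]
  | cons k l ih =>
    simp only [fold, List.map_cons, List.sum_cons]
    rw [bitSum_xor w _ k (h k (by simp)), ih (fun k hk => h k (by simp [hk]))]
    ring

/-- value of the label on a code -/
def wof (m : Fin 9 → Fin 9 → Fin 9 → ZMod 2) (k : ℕ) : ZMod 2 :=
  m ⟨k / 81 % 9, Nat.mod_lt _ (by norm_num)⟩ ⟨k / 9 % 9, Nat.mod_lt _ (by norm_num)⟩
    ⟨k % 9, Nat.mod_lt _ (by norm_num)⟩

lemma wof_code (m : Fin 9 → Fin 9 → Fin 9 → ZMod 2) (a b c : ℕ) (ha : a < 9) (hb : b < 9)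
    (hc : c < 9) : wof m (81 * a + 9 * b + c) = m ⟨a, ha⟩ ⟨b, hb⟩ ⟨c, hc⟩ := by
  unfold wof
  congr 1 <;> apply Fin.ext <;> simp <;> omega

lemma b2z (x y : Bool) : ((x ^^ y).toNat : ZMod 2) = (x.toNat : ZMod 2) + (y.toNat : ZMod 2) := by
  cases x <;> cases y <;> decide

/-- the presence of edges in a colouring with code `n` -/
def present (tbl n a b : ℕ) : Bool := n.testBit (look tbl a b / 2) ^^ (look tbl a b % 2 == 1)

lemma present_of_edgeOK {tbl m v n a b : ℕ} (h : n &&& m = v) (he : edgeOK tbl m v a b = true) :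
    present tbl n a b = true := by
  unfold edgeOK at he
  unfold present
  rw [Bool.and_eq_true] at he
  obtain ⟨h1, h2⟩ := he
  rw [← h, Nat.testBit_and, h1, Bool.and_true] at h2
  exact h2

lemma beta_inside (a b c d : ℕ) (ha : a < 9) (hb : b < 9) (hc : c < 9) (hd : d < 9) :
    beta (⟨a, ha⟩ : Fin 9) ⟨b, hb⟩ ⟨c, hc⟩ ⟨d, hd⟩ =
      (((inside a b c) ^^ (inside a b d)).toNat : ZMod 2) := by
  unfold beta inside
  simp only [Fin.mk_lt_mk]
  rw [b2z]
  congr 1
  · by_cases h1 : a < c <;> by_cases h2 : c < b <;> simp [h1, h2]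
  · by_cases h1 : a < d <;> by_cases h2 : d < b <;> simp [h1, h2]

/-- A checked certificate refutes labels. -/
theorem cert_sound (tbl n : ℕ) (C : ℕ × ℕ × List (List ℕ)) (hC : certOK tbl C = true)
    (hn : n &&& C.1 = C.2.1) (m : Fin 9 → Fin 9 → Fin 9 → ZMod 2)
    (hm : ∀ a b c d : Fin 9, a < b → c < d → present tbl n a b = true →
      present tbl n c d = true → a ≠ c → a ≠ d → b ≠ c → b ≠ d →
      beta a b c d = m a b c + m a b d + m c d a + m c d b) : False := by
  unfold certOK at hC
  rw [Bool.and_eq_true, Bool.and_eq_true] at hC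
  obtain ⟨⟨h1, h2⟩, h3⟩ := hC
  rw [List.all_eq_true] at h1
  generalize quads C.2.2 = Q at h1 h2 h3
  have key : ∀ L : List (ℕ × ℕ × ℕ × ℕ), (∀ q ∈ L, quadOK tbl C.1 C.2.1 q = true) →
      ((L.flatMap tri).map (wof m)).sum = ((par L).toNat : ZMod 2) ∧
      ∀ k ∈ L.flatMap tri, k < 729 := by
    intro L
    induction L with
    | nil => intro _; simp [par]
    | cons q L ih =>
      intro hL
      obtain ⟨ih1, ih2⟩ := ih (fun q hq => hL q (by simp [hq]))
      have hq := hL q (by simp)
      obtain ⟨a, b, c, d⟩ := q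
      simp only [quadOK, Bool.and_eq_true, decide_eq_true_eq, Bool.not_eq_true', beq_eq_false_iff_ne]
        at hq
      obtain ⟨⟨⟨⟨⟨⟨⟨⟨⟨hab, hb⟩, hcd⟩, hd⟩, hac⟩, had⟩, hbc⟩, hbd⟩, he1⟩, he2⟩ := hq
      have ha : a < 9 := by omega
      have hc : c < 9 := by omega
      have hrel := hm ⟨a, ha⟩ ⟨b, hb⟩ ⟨c, hc⟩ ⟨d, hd⟩ hab hcd (present_of_edgeOK hn he1)
        (present_of_edgeOK hn he2) (by simpa [Fin.ext_iff] using hac)
        (by simpa [Fin.ext_iff] using had) (by simpa [Fin.ext_iff] using hbc)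
        (by simpa [Fin.ext_iff] using hbd)
      rw [beta_inside] at hrel
      constructor
      · rw [List.flatMap_cons, List.map_append, List.sum_append, ih1]
        simp only [par]
        rw [b2z, hrel]
        simp only [tri, List.map_cons, List.map_nil, List.sum_cons, List.sum_nil]
        rw [wof_code m a b c ha hb hc, wof_code m a b d ha hb hd, wof_code m c d a hc hd ha,
          wof_code m c d b hc hd hb]
        ring
      · intro k hk
        rw [List.flatMap_cons, List.mem_append] at hk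
        rcases hk with hk | hk
        · simp only [tri, List.mem_cons, List.not_mem_nil, or_false] at hk
          omega
        · exact ih2 k hk
  obtain ⟨k1, k2⟩ := key Q h1
  rw [← fold_sum (wof m) _ k2, beq_iff_eq.mp h2, bitSum_zero, h3] at k1
  exact absurd k1 (by decide)

theorem no_labels1 (n : ℕ) (hn : n < 32) (m : Fin 9 → Fin 9 → Fin 9 → ZMod 2)
    (hm : ∀ a b c d : Fin 9, a < b → c < d → present tbl1 n a b = true →
      present tbl1 n c d = true → a ≠ c → a ≠ d → b ≠ c → b ≠ d →
      beta a b c d = m a b c + m a b d + m c d a + m c d b) : False := by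
  have h := List.all_eq_true.mp cover1 n (List.mem_range.mpr hn)
  obtain ⟨C, hC, hC2⟩ := List.any_eq_true.mp h
  exact cert_sound tbl1 n C (List.all_eq_true.mp certs1_ok C hC) (beq_iff_eq.mp hC2) m hm

theorem no_labels2 (n : ℕ) (hn : n < 1024) (m : Fin 9 → Fin 9 → Fin 9 → ZMod 2)
    (hm : ∀ a b c d : Fin 9, a < b → c < d → present tbl2 n a b = true →
      present tbl2 n c d = true → a ≠ c → a ≠ d → b ≠ c → b ≠ d →
      beta a b c d = m a b c + m a b d + m c d a + m c d b) : False := by
  have h := List.all_eq_true.mp cover2 n (List.mem_range.mpr hn)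
  obtain ⟨C, hC, hC2⟩ := List.any_eq_true.mp h
  exact cert_sound tbl2 n C (List.all_eq_true.mp certs2_ok C hC) (beq_iff_eq.mp hC2) m hm

end Run7.h538.K9
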