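import Pool.Agent.Helper770.VanKampen

set_option autoImplicit false

/-! Parity certificates (mod 2 van Kampen relations) for the two canonical families of
self-complementary colourings on nine vertices. -/

namespace Run7.h538.K9

open Pool.Agent.Helper770.VanKampen

/-- consecutive pairs of a list, each sorted -/
def edgesOf : List ℕ → List (ℕ × ℕ)
  | a :: b :: l => (if a < b then (a, b) else (b, a)) :: edgesOf (b :: l)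
  | _ => []

/-- two paths without a common end -/
def disjEnds (P Q : List ℕ) : Bool :=
  !(P.headD 0 == Q.headD 0) && !(P.headD 0 == Q.getLastD 0) &&
  !(P.getLastD 0 == Q.headD 0) && !(P.getLastD 0 == Q.getLastD 0)

/-- the pairs of edges on independent paths -/
def quads : List (List ℕ) → List (ℕ × ℕ × ℕ × ℕ)
  | [] => []
  | P :: C => (C.flatMap fun Q => if disjEnds P Q then
      (edgesOf P).flatMap fun e => (edgesOf Q).map fun f => (e.1, e.2, f.1, f.2) else []) ++ quads C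

/-- lookup in a table of five-bit entries packed in a number -/
def look (tbl a b : ℕ) : ℕ := (tbl >>> (5 * (9 * a + b))) % 32

/-- the edge `ab` is forced to be present by the bits `m`, `v` -/
def edgeOK (tbl m v a b : ℕ) : Bool :=
  m.testBit (look tbl a b / 2) && (v.testBit (look tbl a b / 2) ^^ (look tbl a b % 2 == 1))

def quadOK (tbl m v : ℕ) (q : ℕ × ℕ × ℕ × ℕ) : Bool :=
  decide (q.1 < q.2.1) && decide (q.2.1 < 9) && decide (q.2.2.1 < q.2.2.2) &&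
  decide (q.2.2.2 < 9) &&
  !(q.1 == q.2.2.1) && !(q.1 == q.2.2.2) && !(q.2.1 == q.2.2.1) && !(q.2.1 == q.2.2.2) &&
  edgeOK tbl m v q.1 q.2.1 && edgeOK tbl m v q.2.2.1 q.2.2.2

/-- codes of the four edge/vertex pairs -/
def tri (q : ℕ × ℕ × ℕ × ℕ) : List ℕ :=
  [81 * q.1 + 9 * q.2.1 + q.2.2.1, 81 * q.1 + 9 * q.2.1 + q.2.2.2,
   81 * q.2.2.1 + 9 * q.2.2.2 + q.1, 81 * q.2.2.1 + 9 * q.2.2.2 + q.2.1]

def fold : List ℕ → ℕ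
  | [] => 0
  | k :: l => fold l ^^^ 2 ^ k

def inside (a b c : ℕ) : Bool := decide (a < c) && decide (c < b)

def par : List (ℕ × ℕ × ℕ × ℕ) → Bool
  | [] => false
  | q :: l => (inside q.1 q.2.1 q.2.2.1 ^^ inside q.1 q.2.1 q.2.2.2) ^^ par l

/-- a full check of a certificate -/
def certOK (tbl : ℕ) (C : ℕ × ℕ × List (List ℕ)) : Bool :=
  (quads C.2.2).all (quadOK tbl C.1 C.2.1) && (fold ((quads C.2.2).flatMap tri) == 0) &&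
  par (quads C.2.2)

/-- table for the eight-cycle with one fixed point -/
def tbl1 : ℕ :=
  747161255047610460260109103865766158238475700228859271736404490293589362991430470410160784729591958205187391317432469504

/-- table for two four-cycles with one fixed point -/
def tbl2 : ℕ :=
  1580144610051808901741638672159383188233176858630466617714722532029402561980709988096786283260859772639385096595787778048

def certs1 : List (ℕ × ℕ × List (List ℕ)) := [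
  (26, 26, [[0, 2], [0, 4], [0, 6], [0, 8], [2, 4], [2, 6], [2, 8], [4, 6], [4, 8], [6, 8]]),
  (26, 0, [[1, 3], [1, 5], [1, 7], [1, 8], [3, 5], [3, 7], [3, 8], [5, 7], [5, 8], [7, 8]]),
  (23, 6, [[0, 2], [0, 3], [0, 6], [1, 2], [1, 8, 3], [1, 6], [4, 2], [4, 3], [4, 6]]),
  (23, 3, [[0, 1], [0, 2], [0, 6], [3, 8, 1], [3, 2], [3, 6], [4, 1], [4, 2], [4, 6]]),
  (29, 8, [[0, 7, 2], [0, 4], [0, 5], [1, 2], [1, 4], [1, 8, 5], [6, 2], [6, 3, 4], [6, 5]]),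
  (29, 13, [[0, 1], [0, 3, 2], [0, 4], [5, 8, 1], [5, 2], [5, 4], [6, 1], [6, 2], [6, 7, 4]]),
  (23, 20, [[0, 8, 2], [0, 3], [0, 7], [1, 2], [1, 3], [1, 7], [5, 2], [5, 3], [5, 7]]),
  (23, 17, [[0, 1], [0, 8, 2], [0, 5], [3, 1], [3, 2], [3, 5], [7, 1], [7, 2], [7, 5]]),
  (29, 16, [[0, 8, 4], [0, 5], [0, 7], [1, 4], [1, 5], [1, 2, 7], [3, 4], [3, 6, 5], [3, 7]]),
  (29, 21, [[0, 1], [0, 3], [0, 8, 4], [5, 1], [5, 2, 3], [5, 4], [7, 6, 1], [7, 3], [7, 4]]),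
  (31, 29, [[0, 1], [0, 8, 2], [0, 3], [0, 4, 5], [1, 6, 2], [1, 3], [1, 7, 5], [2, 3], [2, 5], [3, 5]]),
  (31, 7, [[0, 2], [0, 3], [0, 6, 4], [0, 1, 5], [2, 3], [2, 4], [2, 5], [3, 7, 4], [3, 8, 5], [4, 5]]),
  (31, 2, [[0, 2], [0, 6, 4], [0, 5], [1, 2], [1, 4], [1, 5], [3, 7, 2], [3, 4], [3, 8, 5]]),
  (31, 24, [[0, 8, 2], [0, 4], [0, 5], [1, 2], [1, 4], [1, 7, 5], [3, 6, 2], [3, 4], [3, 5]]),
  (23, 19, [[0, 2], [0, 1, 4], [0, 6], [0, 8], [2, 4], [2, 3, 6], [2, 8], [4, 6], [4, 8], [6, 8]]),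
  (23, 22, [[0, 2], [0, 3, 4], [0, 6], [0, 8], [2, 4], [2, 1, 6], [2, 8], [4, 6], [4, 8], [6, 8]]),
  (23, 1, [[1, 3], [1, 0, 5], [1, 7], [1, 8], [3, 5], [3, 2, 7], [3, 8], [5, 7], [5, 8], [7, 8]]),
  (23, 4, [[1, 3], [1, 2, 5], [1, 7], [1, 8], [3, 5], [3, 0, 7], [3, 8], [5, 7], [5, 8], [7, 8]])]

def certs2 : List (ℕ × ℕ × List (List ℕ)) := [
  (347, 336, [[0, 8, 2], [0, 3], [0, 6], [1, 2], [1, 3], [1, 6], [4, 2], [4, 3], [4, 6]]),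
  (347, 274, [[0, 2], [0, 3], [0, 6], [1, 2], [1, 8, 3], [1, 6], [4, 2], [4, 3], [4, 6]]),
  (371, 337, [[0, 1], [0, 8, 2], [0, 6], [3, 1], [3, 2], [3, 6], [4, 1], [4, 2], [4, 6]]),
  (371, 275, [[0, 1], [0, 2], [0, 6], [3, 8, 1], [3, 2], [3, 6], [4, 1], [4, 2], [4, 6]]),
  (371, 96, [[0, 8, 2], [0, 3], [0, 7], [1, 2], [1, 3], [1, 7], [5, 2], [5, 3], [5, 7]]),
  (371, 34, [[0, 2], [0, 3], [0, 7], [1, 2], [1, 8, 3], [1, 7], [5, 2], [5, 3], [5, 7]]),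
  (359, 97, [[0, 1], [0, 8, 2], [0, 7], [3, 1], [3, 2], [3, 7], [5, 1], [5, 2], [5, 7]]),
  (359, 35, [[0, 1], [0, 2], [0, 7], [3, 8, 1], [3, 2], [3, 7], [5, 1], [5, 2], [5, 7]]),
  (922, 256, [[1, 3], [1, 6], [1, 7], [4, 3], [4, 6], [4, 7], [5, 3], [5, 6], [5, 8, 7]]),
  (946, 384, [[1, 3], [1, 4], [1, 7], [5, 3], [5, 4], [5, 8, 7], [6, 3], [6, 4], [6, 7]]),
  (946, 640, [[1, 3], [1, 4], [1, 7], [5, 3], [5, 4], [5, 7], [6, 3], [6, 8, 4], [6, 7]]),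
  (934, 512, [[1, 3], [1, 4], [1, 5], [6, 3], [6, 8, 4], [6, 5], [7, 3], [7, 4], [7, 5]]),
  (854, 854, [[0, 2], [0, 4], [0, 6], [0, 8], [2, 4], [2, 6], [2, 8], [4, 6], [4, 8], [6, 8]]),
  (599, 532, [[0, 3, 1], [0, 4], [0, 6], [2, 1], [2, 4], [2, 6], [8, 1], [8, 4], [8, 6]]),
  (599, 533, [[0, 1], [0, 4], [0, 6], [2, 3, 1], [2, 4], [2, 6], [8, 1], [8, 4], [8, 6]]),
  (980, 84, [[0, 4], [0, 6], [0, 8], [2, 4], [2, 6], [2, 8], [5, 7, 4], [5, 6], [5, 8]]),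
  (980, 212, [[0, 4], [0, 6], [0, 8], [2, 4], [2, 6], [2, 8], [5, 4], [5, 7, 6], [5, 8]]),
  (1000, 0, [[1, 4], [1, 6], [1, 8], [3, 4], [3, 6], [3, 8], [5, 7, 4], [5, 6], [5, 8]]),
  (1000, 128, [[1, 4], [1, 6], [1, 8], [3, 4], [3, 6], [3, 8], [5, 4], [5, 7, 6], [5, 8]]),
  (619, 40, [[0, 3, 1], [0, 5], [0, 7], [2, 1], [2, 5], [2, 7], [8, 1], [8, 5], [8, 7]]),
  (619, 41, [[0, 1], [0, 5], [0, 7], [2, 3, 1], [2, 5], [2, 7], [8, 1], [8, 5], [8, 7]]),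
  (599, 66, [[0, 2, 1], [0, 3], [0, 8], [5, 1], [5, 3], [5, 8], [7, 1], [7, 3], [7, 8]]),
  (599, 67, [[0, 1], [0, 2, 3], [0, 8], [5, 1], [5, 3], [5, 8], [7, 1], [7, 3], [7, 8]]),
  (980, 768, [[1, 5], [1, 7], [1, 8], [3, 5], [3, 7], [3, 8], [4, 6, 5], [4, 7], [4, 8]]),
  (980, 896, [[1, 5], [1, 7], [1, 8], [3, 5], [3, 7], [3, 8], [4, 5], [4, 6, 7], [4, 8]]),
  (922, 666, [[0, 2], [0, 5], [0, 6], [4, 2], [4, 5], [4, 8, 6], [7, 2], [7, 5], [7, 6]]),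
  (934, 422, [[0, 2], [0, 4], [0, 7], [5, 2], [5, 4], [5, 8, 7], [6, 2], [6, 4], [6, 7]]),
  (910, 526, [[0, 2], [0, 4], [0, 5], [6, 2], [6, 8, 4], [6, 5], [7, 2], [7, 4], [7, 5]]),
  (910, 270, [[0, 2], [0, 4], [0, 5], [6, 2], [6, 4], [6, 5], [7, 2], [7, 4], [7, 8, 5]]),
  (619, 578, [[0, 2, 1], [0, 3], [0, 8], [4, 1], [4, 3], [4, 8], [6, 1], [6, 3], [6, 8]]),
  (619, 579, [[0, 1], [0, 2, 3], [0, 8], [4, 1], [4, 3], [4, 8], [6, 1], [6, 3], [6, 8]]),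
  (1000, 872, [[0, 5], [0, 7], [0, 8], [2, 5], [2, 7], [2, 8], [4, 6, 5], [4, 7], [4, 8]]),
  (1000, 1000, [[0, 5], [0, 7], [0, 8], [2, 5], [2, 7], [2, 8], [4, 5], [4, 6, 7], [4, 8]]),
  (359, 262, [[0, 2], [0, 3], [0, 4], [1, 2], [1, 8, 3], [1, 4], [6, 2], [6, 3], [6, 4]]),
  (335, 263, [[0, 1], [0, 2], [0, 4], [3, 8, 1], [3, 2], [3, 4], [6, 1], [6, 2], [6, 4]]),
  (335, 10, [[0, 2], [0, 3], [0, 5], [1, 2], [1, 8, 3], [1, 5], [7, 2], [7, 3], [7, 5]]),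
  (347, 11, [[0, 1], [0, 2], [0, 5], [3, 8, 1], [3, 2], [3, 5], [7, 1], [7, 2], [7, 5]]),
  (359, 324, [[0, 8, 2], [0, 3], [0, 4], [1, 2], [1, 3], [1, 4], [6, 2], [6, 3], [6, 4]]),
  (335, 325, [[0, 1], [0, 8, 2], [0, 4], [3, 1], [3, 2], [3, 4], [6, 1], [6, 2], [6, 4]]),
  (335, 72, [[0, 8, 2], [0, 3], [0, 5], [1, 2], [1, 3], [1, 5], [7, 2], [7, 3], [7, 5]]),
  (347, 73, [[0, 1], [0, 8, 2], [0, 5], [3, 1], [3, 2], [3, 5], [7, 1], [7, 2], [7, 5]]),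
  (946, 562, [[0, 2], [0, 6], [0, 7], [4, 2], [4, 8, 6], [4, 7], [5, 2], [5, 6], [5, 7]]),
  (946, 306, [[0, 2], [0, 6], [0, 7], [4, 2], [4, 6], [4, 7], [5, 2], [5, 6], [5, 8, 7]]),
  (922, 410, [[0, 2], [0, 5], [0, 6], [4, 2], [4, 5], [4, 6], [7, 2], [7, 8, 5], [7, 6]]),
  (934, 678, [[0, 2], [0, 4], [0, 7], [5, 2], [5, 4], [5, 7], [6, 2], [6, 8, 4], [6, 7]]),
  (922, 512, [[1, 3], [1, 6], [1, 7], [4, 3], [4, 8, 6], [4, 7], [5, 3], [5, 6], [5, 7]]),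
  (910, 640, [[1, 3], [1, 5], [1, 6], [4, 3], [4, 5], [4, 8, 6], [7, 3], [7, 5], [7, 6]]),
  (910, 384, [[1, 3], [1, 5], [1, 6], [4, 3], [4, 5], [4, 6], [7, 3], [7, 8, 5], [7, 6]]),
  (934, 256, [[1, 3], [1, 4], [1, 5], [6, 3], [6, 4], [6, 5], [7, 3], [7, 4], [7, 8, 5]]),
  (877, 840, [[0, 5, 1], [0, 3], [0, 8], [2, 1], [2, 7, 3], [2, 8], [4, 1], [4, 6, 3], [4, 8]]),
  (889, 841, [[0, 1], [0, 5, 3], [0, 8], [2, 7, 1], [2, 3], [2, 8], [4, 1], [4, 6, 3], [4, 8]]),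
  (877, 865, [[0, 1], [0, 7, 3], [0, 8], [2, 5, 1], [2, 3], [2, 8], [4, 6, 1], [4, 3], [4, 8]]),
  (889, 864, [[0, 7, 1], [0, 3], [0, 8], [2, 1], [2, 5, 3], [2, 8], [4, 6, 1], [4, 3], [4, 8]]),
  (861, 792, [[0, 5, 1], [0, 3], [0, 6, 4], [2, 1], [2, 7, 3], [2, 4], [8, 1], [8, 3], [8, 4]]),
  (861, 781, [[0, 1], [0, 5, 3], [0, 4], [2, 7, 1], [2, 3], [2, 6, 4], [8, 1], [8, 3], [8, 4]]),
  (885, 817, [[0, 1], [0, 7, 3], [0, 6, 4], [2, 5, 1], [2, 3], [2, 4], [8, 1], [8, 3], [8, 4]]),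
  (885, 804, [[0, 7, 1], [0, 3], [0, 4], [2, 1], [2, 5, 3], [2, 6, 4], [8, 1], [8, 3], [8, 4]]),
  (885, 68, [[0, 4, 1], [0, 3], [0, 8], [2, 1], [2, 6, 3], [2, 8], [5, 7, 1], [5, 3], [5, 8]]),
  (861, 69, [[0, 1], [0, 4, 3], [0, 8], [2, 6, 1], [2, 3], [2, 8], [5, 7, 1], [5, 3], [5, 8]]),
  (885, 81, [[0, 1], [0, 6, 3], [0, 8], [2, 4, 1], [2, 3], [2, 8], [5, 1], [5, 7, 3], [5, 8]]),
  (861, 80, [[0, 6, 1], [0, 3], [0, 8], [2, 1], [2, 4, 3], [2, 8], [5, 1], [5, 7, 3], [5, 8]]),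
  (877, 12, [[0, 4, 1], [0, 3], [0, 5], [2, 1], [2, 6, 3], [2, 7, 5], [8, 1], [8, 3], [8, 5]]),
  (877, 37, [[0, 1], [0, 4, 3], [0, 7, 5], [2, 6, 1], [2, 3], [2, 5], [8, 1], [8, 3], [8, 5]]),
  (889, 25, [[0, 1], [0, 6, 3], [0, 5], [2, 4, 1], [2, 3], [2, 7, 5], [8, 1], [8, 3], [8, 5]]),
  (889, 48, [[0, 6, 1], [0, 3], [0, 7, 5], [2, 1], [2, 4, 3], [2, 5], [8, 1], [8, 3], [8, 5]]),
  (874, 768, [[1, 3], [1, 4], [1, 6], [1, 8], [3, 4], [3, 6], [3, 8], [4, 6], [4, 8], [6, 8]]),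
  (874, 106, [[0, 2], [0, 5], [0, 7], [0, 8], [2, 5], [2, 7], [2, 8], [5, 7], [5, 8], [7, 8]]),
  (854, 0, [[1, 3], [1, 5], [1, 7], [1, 8], [3, 5], [3, 7], [3, 8], [5, 7], [5, 8], [7, 8]]),
  (947, 560, [[0, 3, 1, 2], [0, 6], [0, 7], [4, 2], [4, 8, 6], [4, 7], [5, 2], [5, 6], [5, 7]]),
  (947, 305, [[0, 1, 3, 2], [0, 6], [0, 7], [4, 2], [4, 6], [4, 7], [5, 2], [5, 6], [5, 8, 7]]),
  (923, 408, [[0, 3, 1, 2], [0, 5], [0, 6], [4, 2], [4, 5], [4, 6], [7, 2], [7, 8, 5], [7, 6]]),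
  (923, 665, [[0, 1, 3, 2], [0, 5], [0, 6], [4, 2], [4, 5], [4, 8, 6], [7, 2], [7, 5], [7, 6]]),
  (923, 258, [[1, 2, 0, 3], [1, 6], [1, 7], [4, 3], [4, 6], [4, 7], [5, 3], [5, 6], [5, 8, 7]]),
  (923, 515, [[1, 0, 2, 3], [1, 6], [1, 7], [4, 3], [4, 8, 6], [4, 7], [5, 3], [5, 6], [5, 7]]),
  (911, 642, [[1, 2, 0, 3], [1, 5], [1, 6], [4, 3], [4, 5], [4, 8, 6], [7, 3], [7, 5], [7, 6]]),
  (911, 387, [[1, 0, 2, 3], [1, 5], [1, 6], [4, 3], [4, 5], [4, 6], [7, 3], [7, 8, 5], [7, 6]]),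
  (750, 586, [[0, 5], [0, 2, 7], [0, 8], [4, 1, 5], [4, 7], [4, 8], [6, 5], [6, 3, 7], [6, 8]]),
  (762, 714, [[0, 5], [0, 2, 7], [0, 8], [4, 5], [4, 1, 7], [4, 8], [6, 3, 5], [6, 7], [6, 8]]),
  (758, 82, [[0, 2, 4], [0, 6], [0, 8], [5, 1, 4], [5, 6], [5, 8], [7, 4], [7, 3, 6], [7, 8]]),
  (758, 198, [[0, 4], [0, 2, 6], [0, 8], [5, 4], [5, 3, 6], [5, 8], [7, 1, 4], [7, 6], [7, 8]]),
  (734, 524, [[1, 3, 5], [1, 7], [1, 8], [4, 0, 5], [4, 7], [4, 8], [6, 5], [6, 2, 7], [6, 8]]),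
  (758, 676, [[1, 3, 5], [1, 7], [1, 8], [4, 5], [4, 0, 7], [4, 8], [6, 2, 5], [6, 7], [6, 8]]),
  (750, 12, [[1, 4], [1, 3, 6], [1, 8], [5, 0, 4], [5, 6], [5, 8], [7, 4], [7, 2, 6], [7, 8]]),
  (750, 164, [[1, 3, 4], [1, 6], [1, 8], [5, 4], [5, 2, 6], [5, 8], [7, 0, 4], [7, 6], [7, 8]]),
  (947, 304, [[0, 3, 1, 2], [0, 6], [0, 7], [4, 2], [4, 6], [4, 7], [5, 2], [5, 6], [5, 8, 7]]),
  (947, 561, [[0, 1, 3, 2], [0, 6], [0, 7], [4, 2], [4, 8, 6], [4, 7], [5, 2], [5, 6], [5, 7]]),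
  (923, 664, [[0, 3, 1, 2], [0, 5], [0, 6], [4, 2], [4, 5], [4, 8, 6], [7, 2], [7, 5], [7, 6]]),
  (923, 409, [[0, 1, 3, 2], [0, 5], [0, 6], [4, 2], [4, 5], [4, 6], [7, 2], [7, 8, 5], [7, 6]]),
  (923, 514, [[1, 2, 0, 3], [1, 6], [1, 7], [4, 3], [4, 8, 6], [4, 7], [5, 3], [5, 6], [5, 7]]),
  (923, 259, [[1, 0, 2, 3], [1, 6], [1, 7], [4, 3], [4, 6], [4, 7], [5, 3], [5, 6], [5, 8, 7]]),
  (911, 386, [[1, 2, 0, 3], [1, 5], [1, 6], [4, 3], [4, 5], [4, 6], [7, 3], [7, 8, 5], [7, 6]]),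
  (911, 643, [[1, 0, 2, 3], [1, 5], [1, 6], [4, 3], [4, 5], [4, 8, 6], [7, 3], [7, 5], [7, 6]]),
  (894, 364, [[0, 4, 6, 2], [0, 5], [0, 7], [0, 8], [2, 5], [2, 7], [2, 8], [5, 3, 1, 7], [5, 8], [7, 8]]),
  (894, 266, [[1, 4, 6, 3], [1, 5], [1, 7], [1, 8], [3, 5], [3, 7], [3, 8], [5, 0, 2, 7], [5, 8], [7, 8]]),
  (487, 134, [[0, 2], [0, 3], [0, 4], [1, 2], [1, 8, 3], [1, 4], [6, 2], [6, 3], [6, 7, 5, 4]]),
  (487, 68, [[0, 8, 2], [0, 3], [0, 4], [1, 2], [1, 3], [1, 4], [6, 2], [6, 3], [6, 5, 7, 4]]),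
  (499, 19, [[0, 1], [0, 2], [0, 6], [3, 8, 1], [3, 2], [3, 6], [4, 1], [4, 2], [4, 7, 5, 6]]),
  (463, 197, [[0, 1], [0, 8, 2], [0, 4], [3, 1], [3, 2], [3, 4], [6, 1], [6, 2], [6, 7, 5, 4]]),
  (475, 18, [[0, 2], [0, 3], [0, 6], [1, 2], [1, 8, 3], [1, 6], [4, 2], [4, 3], [4, 7, 5, 6]]),
  (475, 208, [[0, 8, 2], [0, 3], [0, 6], [1, 2], [1, 3], [1, 6], [4, 2], [4, 3], [4, 5, 7, 6]]),
  (499, 81, [[0, 1], [0, 8, 2], [0, 6], [3, 1], [3, 2], [3, 6], [4, 1], [4, 2], [4, 7, 5, 6]]),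
  (463, 135, [[0, 1], [0, 2], [0, 4], [3, 8, 1], [3, 2], [3, 4], [6, 1], [6, 2], [6, 7, 5, 4]]),
  (499, 480, [[0, 8, 2], [0, 3], [0, 7], [1, 2], [1, 3], [1, 7], [5, 2], [5, 3], [5, 4, 6, 7]]),
  (463, 266, [[0, 2], [0, 3], [0, 5], [1, 2], [1, 8, 3], [1, 5], [7, 2], [7, 3], [7, 4, 6, 5]]),
  (475, 395, [[0, 1], [0, 2], [0, 5], [3, 8, 1], [3, 2], [3, 5], [7, 1], [7, 2], [7, 6, 4, 5]]),
  (475, 329, [[0, 1], [0, 8, 2], [0, 5], [3, 1], [3, 2], [3, 5], [7, 1], [7, 2], [7, 4, 6, 5]]),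
  (847, 839, [[0, 2], [0, 4], [0, 1, 6], [0, 8], [2, 3, 4], [2, 6], [2, 8], [4, 6], [4, 8], [6, 8]]),
  (855, 791, [[0, 2], [0, 4], [0, 6], [0, 1, 8], [2, 4], [2, 6], [2, 3, 8], [4, 6], [4, 8], [6, 8]]),
  (859, 850, [[0, 2], [0, 3, 4], [0, 6], [0, 8], [2, 4], [2, 1, 6], [2, 8], [4, 6], [4, 8], [6, 8]]),
  (855, 790, [[0, 2], [0, 4], [0, 6], [0, 3, 8], [2, 4], [2, 6], [2, 1, 8], [4, 6], [4, 8], [6, 8]]),
  (982, 470, [[0, 2], [0, 4], [0, 6], [0, 8], [2, 4], [2, 6], [2, 8], [4, 6], [4, 5, 8], [6, 7, 8]]),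
  (982, 342, [[0, 2], [0, 4], [0, 6], [0, 8], [2, 4], [2, 6], [2, 8], [4, 6], [4, 7, 8], [6, 5, 8]]),
  (883, 785, [[1, 3], [1, 4], [1, 0, 6], [1, 8], [3, 2, 4], [3, 6], [3, 8], [4, 6], [4, 8], [6, 8]]),
  (875, 833, [[1, 3], [1, 4], [1, 6], [1, 0, 8], [3, 4], [3, 6], [3, 2, 8], [4, 6], [4, 8], [6, 8]]),
  (859, 784, [[1, 3], [1, 2, 4], [1, 6], [1, 8], [3, 4], [3, 0, 6], [3, 8], [4, 6], [4, 8], [6, 8]]),
  (875, 832, [[1, 3], [1, 4], [1, 6], [1, 2, 8], [3, 4], [3, 6], [3, 0, 8], [4, 6], [4, 8], [6, 8]]),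
  (1002, 384, [[1, 3], [1, 4], [1, 6], [1, 8], [3, 4], [3, 6], [3, 8], [4, 6], [4, 5, 8], [6, 7, 8]]),
  (1002, 256, [[1, 3], [1, 4], [1, 6], [1, 8], [3, 4], [3, 6], [3, 8], [4, 6], [4, 7, 8], [6, 5, 8]]),
  (871, 99, [[0, 2], [0, 1, 5], [0, 7], [0, 8], [2, 5], [2, 3, 7], [2, 8], [5, 7], [5, 8], [7, 8]]),
  (875, 43, [[0, 2], [0, 5], [0, 7], [0, 1, 8], [2, 5], [2, 7], [2, 3, 8], [5, 7], [5, 8], [7, 8]]),
  (883, 98, [[0, 2], [0, 3, 5], [0, 7], [0, 8], [2, 5], [2, 1, 7], [2, 8], [5, 7], [5, 8], [7, 8]]),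
  (875, 42, [[0, 2], [0, 5], [0, 7], [0, 3, 8], [2, 5], [2, 7], [2, 1, 8], [5, 7], [5, 8], [7, 8]]),
  (1002, 746, [[0, 2], [0, 5], [0, 7], [0, 8], [2, 5], [2, 7], [2, 8], [5, 7], [5, 4, 8], [7, 6, 8]]),
  (1002, 618, [[0, 2], [0, 5], [0, 7], [0, 8], [2, 5], [2, 7], [2, 8], [5, 7], [5, 6, 8], [7, 4, 8]]),
  (871, 33, [[1, 3], [1, 5], [1, 0, 7], [1, 8], [3, 2, 5], [3, 7], [3, 8], [5, 7], [5, 8], [7, 8]]),
  (855, 65, [[1, 3], [1, 5], [1, 7], [1, 0, 8], [3, 5], [3, 7], [3, 2, 8], [5, 7], [5, 8], [7, 8]]),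
  (847, 8, [[1, 3], [1, 5], [1, 2, 7], [1, 8], [3, 0, 5], [3, 7], [3, 8], [5, 7], [5, 8], [7, 8]]),
  (855, 64, [[1, 3], [1, 5], [1, 7], [1, 2, 8], [3, 5], [3, 7], [3, 0, 8], [5, 7], [5, 8], [7, 8]]),
  (982, 640, [[1, 3], [1, 5], [1, 7], [1, 8], [3, 5], [3, 7], [3, 8], [5, 7], [5, 4, 8], [7, 6, 8]]),
  (982, 512, [[1, 3], [1, 5], [1, 7], [1, 8], [3, 5], [3, 7], [3, 8], [5, 7], [5, 6, 8], [7, 4, 8]]),
  (511, 360, [[0, 3, 1], [0, 8, 2], [0, 5], [0, 7], [1, 2], [1, 5], [1, 7], [2, 5], [2, 7], [5, 6, 4, 7]]),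
  (511, 426, [[0, 3, 8, 1], [0, 2], [0, 5], [0, 7], [1, 2], [1, 5], [1, 7], [2, 5], [2, 7], [5, 4, 6, 7]]),
  (511, 299, [[0, 1], [0, 2], [0, 5], [0, 7], [1, 8, 3, 2], [1, 5], [1, 7], [2, 5], [2, 7], [5, 6, 4, 7]]),
  (511, 489, [[0, 1], [0, 8, 2], [0, 5], [0, 7], [1, 3, 2], [1, 5], [1, 7], [2, 5], [2, 7], [5, 4, 6, 7]]),
  (883, 851, [[0, 2], [0, 1, 4], [0, 6], [0, 8], [2, 4], [2, 3, 6], [2, 8], [4, 6], [4, 8], [6, 8]]),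
  (871, 838, [[0, 2], [0, 4], [0, 3, 6], [0, 8], [2, 1, 4], [2, 6], [2, 8], [4, 6], [4, 8], [6, 8]]),
  (847, 773, [[1, 3], [1, 0, 4], [1, 6], [1, 8], [3, 4], [3, 2, 6], [3, 8], [4, 6], [4, 8], [6, 8]]),
  (871, 772, [[1, 3], [1, 4], [1, 2, 6], [1, 8], [3, 0, 4], [3, 6], [3, 8], [4, 6], [4, 8], [6, 8]]),
  (859, 75, [[0, 2], [0, 5], [0, 1, 7], [0, 8], [2, 3, 5], [2, 7], [2, 8], [5, 7], [5, 8], [7, 8]]),
  (847, 74, [[0, 2], [0, 5], [0, 3, 7], [0, 8], [2, 1, 5], [2, 7], [2, 8], [5, 7], [5, 8], [7, 8]]),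
  (859, 9, [[1, 3], [1, 0, 5], [1, 7], [1, 8], [3, 5], [3, 2, 7], [3, 8], [5, 7], [5, 8], [7, 8]]),
  (883, 32, [[1, 3], [1, 2, 5], [1, 7], [1, 8], [3, 5], [3, 0, 7], [3, 8], [5, 7], [5, 8], [7, 8]])]

theorem certs1_ok : certs1.all (certOK tbl1) = true := by decide +kernel

theorem certs2_ok : certs2.all (certOK tbl2) = true := by decide +kernel

theorem cover1 : (List.range 32).all (fun n => certs1.any fun C => n &&& C.1 == C.2.1) = true := by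
  decide +kernel

theorem cover2 :
    (List.range 1024).all (fun n => certs2.any fun C => n &&& C.1 == C.2.1) = true := by
  decide +kernel

end Run7.h538.K9
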