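import Pool.Agent.Run7.h538.K9Top

set_option autoImplicit false

/-! A straight-line drawing of the complete graph on nine vertices in two planes with one
crossing. -/

namespace Run7.h538.K9

open Equiv Set Pool.Agent.Helper770.Straight

/-- the coordinates -/
def co : Fin 2 → Fin 9 → ℤ × ℤ :=
  ![![(23, 6), (18, 7), (23, 20), (13, 6), (16, 7), (14, 12), (3, 1), (20, 9), (21, 21)],
    ![(4, 3), (14, 17), (0, 20), (6, 22), (14, 12), (23, 7), (8, 23), (21, 15), (9, 18)]]

/-- the colouring -/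
def cc (u v : Fin 9) : Fin 2 :=
  if (472288452004783802084038 : ℕ).testBit (9 * u + v) then 0 else 1

/-- integer orientation -/
def oriZ (a b c : ℤ × ℤ) : ℤ := (b.1 - a.1) * (c.2 - a.2) - (b.2 - a.2) * (c.1 - a.1)

noncomputable def pt (i : Fin 2) (u : Fin 9) : ℂ := ⟨((co i u).1 : ℝ), ((co i u).2 : ℝ)⟩

lemma ori_pt (i : Fin 2) (a b c : Fin 9) :
    ori (pt i a) (pt i b) (pt i c) = ((oriZ (co i a) (co i b) (co i c) : ℤ) : ℝ) := by
  simp [ori, pt, oriZ]

lemma co_inj : ∀ i : Fin 2, ∀ a b : Fin 9, co i a = co i b → a = b := by decide +kernel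

lemma co_gen : ∀ i : Fin 2, ∀ a b c : Fin 9, a ≠ b → c ≠ a → c ≠ b →
    oriZ (co i a) (co i b) (co i c) ≠ 0 := by decide +kernel

lemma cc_symm : ∀ u v : Fin 9, cc u v = cc v u := by decide +kernel

lemma pt_inj (i : Fin 2) : Function.Injective (pt i) := by
  intro a b h
  apply co_inj i
  have h1 := congrArg Complex.re h
  have h2 := congrArg Complex.im h
  simp only [pt] at h1 h2
  exact Prod.ext (by exact_mod_cast h1) (by exact_mod_cast h2)

lemma pt_gen (i : Fin 2) : GenPos (pt i) where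
  inj := pt_inj i
  gen a b c h1 h2 h3 := by
    rw [ori_pt]
    exact_mod_cast co_gen i a b c h1 h2 h3

/-- the arcs -/
noncomputable def gg (i : Fin 2) (u v : Fin 9) : ℝ → ℂ := seg (pt i u) (pt i v)

lemma seg_avoid (i : Fin 2) (u v : Fin 9) (huv : u ≠ v) (t : ℝ) (h0 : 0 < t) (h1 : t < 1)
    (w : Fin 9) : gg i u v t ≠ pt i w := by
  intro hw
  unfold gg at hw
  have hne : pt i u ≠ pt i v := fun h => huv (pt_inj i h)
  by_cases e1 : w = u
  · have h2 : seg (pt i u) (pt i v) t = seg (pt i u) (pt i v) 0 := by rw [hw, seg_zero, e1]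
    exact h0.ne' (seg_inj hne h2)
  by_cases e2 : w = v
  · have h2 : seg (pt i u) (pt i v) t = seg (pt i u) (pt i v) 1 := by rw [hw, seg_one, e2]
    exact h1.ne (seg_inj hne h2)
  · have h4 : seg (pt i u) (pt i v) t = seg (pt i w) (pt i w) 0 := by rw [hw, seg_zero]
    have h5 := ori_seg h4
    apply (pt_gen i).gen u v w huv e1 e2
    linarith

theorem draw_ok : Dr cc pt gg := by
  refine ⟨fun u v _ => cc_symm u v, pt_inj, ?_⟩
  intro i u v huv _
  have huv' : u ≠ v := (SimpleGraph.top_adj u v).mp huv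
  have hne : pt i u ≠ pt i v := fun h => huv' (pt_inj i h)
  refine ⟨(seg_cont _ _).continuousOn, fun s _ t _ h => seg_inj hne h, seg_zero _ _, seg_one _ _,
    fun t _ _ => ?_, fun t h0 h1 w => seg_avoid i u v huv' t h0 h1 w⟩
  exact seg_comm _ _ _

lemma cross_form {V : Type*} {P : V → ℂ} (h : GenPos P) {a b c d : V} {s t : ℝ} (hab : a ≠ b)
    (hcd : c ≠ d) (hs0 : 0 < s) (hs1 : s < 1) (ht0 : 0 < t) (ht1 : t < 1)
    (hst : seg (P a) (P b) s = seg (P c) (P d) t) (hne : ¬ (a = c ∧ b = d))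
    (hne' : ¬ (a = d ∧ b = c)) :
    a ≠ c ∧ a ≠ d ∧ b ≠ c ∧ b ≠ d ∧
      ori (P a) (P b) (P c) * ori (P a) (P b) (P d) < 0 ∧
      ori (P c) (P d) (P a) * ori (P c) (P d) (P b) < 0 := by
  have o1 := ori_seg hst
  have o2 := ori_seg hst.symm
  have hac : a ≠ c := by
    intro hh
    rw [← hh, ori_self₁, mul_zero, zero_add] at o1
    rcases mul_eq_zero.mp o1 with h1 | h1
    · exact ht0.ne' h1
    · refine h.gen a b d hab ?_ ?_ h1
      · rw [hh]; exact hcd.symm
      · intro h2; exact hne ⟨hh, h2.symm⟩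
  have had : a ≠ d := by
    intro hh
    rw [← hh, ori_self₁, mul_zero, add_zero] at o1
    rcases mul_eq_zero.mp o1 with h1 | h1
    · linarith
    · refine h.gen a b c hab hac.symm ?_ h1
      intro h2; exact hne' ⟨hh, h2.symm⟩
  have hbc : b ≠ c := by
    intro hh
    rw [← hh, ori_self₂, mul_zero, zero_add] at o1
    rcases mul_eq_zero.mp o1 with h1 | h1
    · exact ht0.ne' h1
    · refine h.gen a b d hab had.symm ?_ h1
      rw [hh]; exact hcd.symm
  have hbd : b ≠ d := by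
    intro hh
    rw [← hh, ori_self₂, mul_zero, add_zero] at o1
    rcases mul_eq_zero.mp o1 with h1 | h1
    · linarith
    · refine h.gen a b c hab hac.symm ?_ h1
      rw [hh]; exact hcd
  refine ⟨hac, had, hbc, hbd, ?_, ?_⟩
  · have n1 := h.gen a b c hab hac.symm hbc.symm
    have e1 : t * (ori (P a) (P b) (P c) * ori (P a) (P b) (P d)) =
        -((1 - t) * (ori (P a) (P b) (P c)) ^ 2) := by
      linear_combination (ori (P a) (P b) (P c)) * o1
    have p1 : 0 < (1 - t) * (ori (P a) (P b) (P c)) ^ 2 := by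
      have : 0 < (ori (P a) (P b) (P c)) ^ 2 := by positivity
      have h1t : 0 < 1 - t := by linarith
      positivity
    by_contra hc
    push Not at hc
    have := mul_nonneg ht0.le hc
    linarith
  · have n1 := h.gen c d a hcd hac had
    have e1 : s * (ori (P c) (P d) (P a) * ori (P c) (P d) (P b)) =
        -((1 - s) * (ori (P c) (P d) (P a)) ^ 2) := by
      linear_combination (ori (P c) (P d) (P a)) * o2
    have p1 : 0 < (1 - s) * (ori (P c) (P d) (P a)) ^ 2 := by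
      have : 0 < (ori (P c) (P d) (P a)) ^ 2 := by positivity
      have h1t : 0 < 1 - s := by linarith
      positivity
    by_contra hc
    push Not at hc
    have := mul_nonneg hs0.le hc
    linarith

lemma cross_unique {V : Type*} {P : V → ℂ} (h : GenPos P) {a b c d : V} {s t s' t' : ℝ}
    (hab : a ≠ b) (hcd : c ≠ d) (hs0 : 0 < s) (hs1 : s < 1) (ht0 : 0 < t) (ht1 : t < 1)
    (hst : seg (P a) (P b) s = seg (P c) (P d) t) (hne : ¬ (a = c ∧ b = d))
    (hne' : ¬ (a = d ∧ b = c)) (hst' : seg (P a) (P b) s' = seg (P c) (P d) t') : s = s' := by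
  obtain ⟨-, -, -, -, -, hneg⟩ := cross_form h hab hcd hs0 hs1 ht0 ht1 hst hne hne'
  have o1 := ori_seg hst.symm
  have o2 := ori_seg hst'.symm
  set A := ori (P c) (P d) (P a)
  set B := ori (P c) (P d) (P b)
  have hAB : B - A ≠ 0 := by
    intro hh
    have : B = A := by linarith
    rw [this] at hneg
    nlinarith [mul_self_nonneg A]
  have : (s - s') * (B - A) = 0 := by linarith
  rcases mul_eq_zero.mp this with hh | hh
  · linarith
  · exact absurd hh hAB

/-- the crossing conditions on a tuple -/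
def bad (i : Fin 2) (u v w z : Fin 9) : Bool :=
  decide (cc u v = i) && decide (cc w z = i) && !decide (u = v) && !decide (w = z) &&
  decide (oriZ (co i u) (co i v) (co i w) * oriZ (co i u) (co i v) (co i z) < 0) &&
  decide (oriZ (co i w) (co i z) (co i u) * oriZ (co i w) (co i z) (co i v) < 0)

lemma bad_list' : ∀ i : Fin 2, ∀ u v w z : Fin 9, bad i u v w z = true →
    i = 0 ∧ (L4 1 5 2 4).elem (u, v, w, z) = true := by
  decide +kernel

lemma bad_list (i : Fin 2) (u v w z : Fin 9) (h : bad i u v w z = true) :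
    i = 0 ∧ (u, v, w, z) ∈ L4 1 5 2 4 := by
  obtain ⟨h1, h2⟩ := bad_list' i u v w z h
  exact ⟨h1, List.elem_iff.mp h2⟩

theorem draw_card : (XS cc gg).Finite ∧ (XS cc gg).ncard ≤ 8 := by
  classical
  let π : Fin 2 × Fin 9 × Fin 9 × Fin 9 × Fin 9 × ℂ → Fin 9 × Fin 9 × Fin 9 × Fin 9 :=
    fun x => (x.2.1, x.2.2.1, x.2.2.2.1, x.2.2.2.2.1)
  have hform : ∀ x ∈ XS cc gg, x.1 = 0 ∧ π x ∈ L4 1 5 2 4 := by
    rintro ⟨i, u, v, w, z, q⟩ ⟨a1, a2, a3, a4, a5, a6, ⟨s, hs0, hs1, hs⟩, ⟨t, ht0, ht1, ht⟩⟩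
    simp only at a1 a2 a3 a4 a5 a6 hs ht
    rw [SimpleGraph.top_adj] at a1 a2
    obtain ⟨-, -, -, -, n1, n2⟩ := cross_form (pt_gen i) a1 a2 hs0 hs1 ht0 ht1
      (hs.trans ht.symm) a5 a6
    rw [ori_pt, ori_pt] at n1 n2
    apply bad_list i u v w z
    simp only [bad, Bool.and_eq_true, decide_eq_true_eq, Bool.not_eq_true', decide_eq_false_iff_not]
    exact ⟨⟨⟨⟨⟨a3, a4⟩, a1⟩, a2⟩, by exact_mod_cast n1⟩, by exact_mod_cast n2⟩
  have hinj : Set.InjOn π (XS cc gg) := by
    intro x hx y hy hxy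
    have i1 := (hform x hx).1
    have i2 := (hform y hy).1
    obtain ⟨i, u, v, w, z, q⟩ := x
    obtain ⟨i', u', v', w', z', q'⟩ := y
    simp only at i1 i2
    subst i1
    subst i2
    simp only [π, Prod.mk.injEq] at hxy
    obtain ⟨rfl, rfl, rfl, rfl⟩ := hxy
    obtain ⟨a1, a2, a3, a4, a5, a6, ⟨s, hs0, hs1, hs⟩, ⟨t, ht0, ht1, ht⟩⟩ := hx
    obtain ⟨-, -, -, -, -, -, ⟨s', hs0', hs1', hs'⟩, ⟨t', ht0', ht1', ht'⟩⟩ := hy
    simp only at a1 a2 a3 a4 a5 a6 hs ht hs' ht'
    rw [SimpleGraph.top_adj] at a1 a2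
    have := cross_unique (pt_gen 0) a1 a2 hs0 hs1 ht0 ht1 (hs.trans ht.symm) a5 a6
      (hs'.trans ht'.symm)
    rw [← this] at hs'
    rw [← hs, ← hs']
  have hsub : π '' (XS cc gg) ⊆ ((L4 1 5 2 4).toFinset : Set (Fin 9 × Fin 9 × Fin 9 × Fin 9)) := by
    rintro _ ⟨x, hx, rfl⟩
    rw [List.coe_toFinset]
    exact (hform x hx).2
  have hfin : (XS cc gg).Finite :=
    Set.Finite.of_finite_image ((Finset.finite_toSet _).subset hsub) hinj
  refine ⟨hfin, ?_⟩
  rw [← hinj.ncard_image]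
  refine (Set.ncard_le_ncard hsub (Finset.finite_toSet _)).trans ?_
  rw [Set.ncard_coe_finset]
  exact List.toFinset_card_le _

end Run7.h538.K9
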