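import Pool.Agent.Run7.h538.K9Perm

set_option autoImplicit false

/-! The canonical families: a colouring reversed by the canonical permutation is coded by bits. -/

namespace Run7.h538.K9

open Equiv Pool.Agent.Helper770.VanKampen

def rep1 : Fin 5 → Fin 9 × Fin 9 := ![(0, 1), (0, 2), (0, 3), (0, 4), (0, 8)]

def rep2 : Fin 10 → Fin 9 × Fin 9 :=
  ![(0, 1), (0, 2), (0, 4), (0, 5), (0, 6), (0, 7), (0, 8), (4, 5), (4, 6), (4, 8)]

lemma rep1_ne : ∀ i, (rep1 i).1 ≠ (rep1 i).2 := by decide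
lemma rep2_ne : ∀ i, (rep2 i).1 ≠ (rep2 i).2 := by decide

lemma table1 : ∀ u v : Fin 9, u ≠ v → ∃ i : Fin 5, ∃ k : Fin 8,
    look tbl1 u v / 2 = (i : ℕ) ∧ look tbl1 u v % 2 = (k : ℕ) % 2 ∧
    (((s1 ^ (k : ℕ)) (rep1 i).1 = u ∧ (s1 ^ (k : ℕ)) (rep1 i).2 = v) ∨
     ((s1 ^ (k : ℕ)) (rep1 i).1 = v ∧ (s1 ^ (k : ℕ)) (rep1 i).2 = u)) := by
  decide +kernel

lemma table2 : ∀ u v : Fin 9, u ≠ v → ∃ i : Fin 10, ∃ k : Fin 4,
    look tbl2 u v / 2 = (i : ℕ) ∧ look tbl2 u v % 2 = (k : ℕ) % 2 ∧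
    (((s2 ^ (k : ℕ)) (rep2 i).1 = u ∧ (s2 ^ (k : ℕ)) (rep2 i).2 = v) ∨
     ((s2 ^ (k : ℕ)) (rep2 i).1 = v ∧ (s2 ^ (k : ℕ)) (rep2 i).2 = u)) := by
  decide +kernel

lemma present_eq {N K : ℕ} (s : Perm (Fin 9)) (tbl : ℕ) (rep : Fin N → Fin 9 × Fin 9)
    (hrep : ∀ i, (rep i).1 ≠ (rep i).2)
    (htab : ∀ u v : Fin 9, u ≠ v → ∃ i : Fin N, ∃ k : Fin K,
      look tbl u v / 2 = (i : ℕ) ∧ look tbl u v % 2 = (k : ℕ) % 2 ∧
      (((s ^ (k : ℕ)) (rep i).1 = u ∧ (s ^ (k : ℕ)) (rep i).2 = v) ∨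
       ((s ^ (k : ℕ)) (rep i).1 = v ∧ (s ^ (k : ℕ)) (rep i).2 = u)))
    (χ : Fin 9 → Fin 9 → Bool) (hs : ∀ u v, χ u v = χ v u)
    (ha : ∀ u v, u ≠ v → χ (s u) (s v) = !χ u v) (u v : Fin 9) (huv : u ≠ v) :
    χ u v = present tbl (Nat.ofBits fun i : Fin N => χ (rep i).1 (rep i).2) u v := by
  obtain ⟨i, k, h1, h2, h3⟩ := htab u v huv
  have hk := anti_pow s χ ha k (rep i).1 (rep i).2 (hrep i)
  have hχ : χ u v = (χ (rep i).1 (rep i).2 ^^ ((k : ℕ) % 2 == 1)) := by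
    rcases h3 with ⟨e1, e2⟩ | ⟨e1, e2⟩
    · rw [← hk, e1, e2]
    · rw [← hk, e1, e2, hs]
  rw [hχ, present, h1, h2, Nat.testBit_ofBits_lt _ _ i.isLt]

/-- No labels for a colouring of the pairs of nine points with an antimorphism. -/
theorem no_labels_anti (φ : Perm (Fin 9)) (χ : Fin 9 → Fin 9 → Bool) (hs : ∀ u v, χ u v = χ v u)
    (ha : ∀ u v, u ≠ v → χ (φ u) (φ v) = !χ u v)
    (H : ∀ e : Perm (Fin 9), ∃ m : Fin 9 → Fin 9 → Fin 9 → ZMod 2,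
      ∀ a b c d : Fin 9, a < b → c < d → χ (e a) (e b) = true →
      χ (e c) (e d) = true → a ≠ c → a ≠ d → b ≠ c → b ≠ d →
      beta a b c d = m a b c + m a b d + m c d a + m c d b) : False := by
  have conj : ∀ s : Perm (Fin 9), IsConj φ s → ∃ e : Perm (Fin 9),
      ∀ u v, u ≠ v → χ (e (s u)) (e (s v)) = !χ (e u) (e v) := by
    intro s hsφ
    obtain ⟨g, hg⟩ := isConj_iff.mp hsφ
    refine ⟨g⁻¹, fun u v huv => ?_⟩
    have h1 : ∀ x, g⁻¹ (s x) = φ (g⁻¹ x) := by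
      intro x
      rw [← hg]
      simp
    rw [h1, h1]
    exact ha _ _ (fun h => huv (g⁻¹.injective h))
  rcases anti_type φ χ hs ha with h | h
  · obtain ⟨e, he⟩ := conj s1 h
    obtain ⟨m, hm⟩ := H e
    let χ' : Fin 9 → Fin 9 → Bool := fun u v => χ (e u) (e v)
    have hp := present_eq s1 tbl1 rep1 rep1_ne table1 χ' (fun u v => hs _ _) he
    refine no_labels1 (Nat.ofBits fun i : Fin 5 => χ' (rep1 i).1 (rep1 i).2)
      (Nat.ofBits_lt_two_pow _) m ?_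
    intro a b c d hab hcd h1 h2 h3 h4 h5 h6
    rw [← hp a b hab.ne] at h1
    rw [← hp c d hcd.ne] at h2
    exact hm a b c d hab hcd h1 h2 h3 h4 h5 h6
  · obtain ⟨e, he⟩ := conj s2 h
    obtain ⟨m, hm⟩ := H e
    let χ' : Fin 9 → Fin 9 → Bool := fun u v => χ (e u) (e v)
    have hp := present_eq s2 tbl2 rep2 rep2_ne table2 χ' (fun u v => hs _ _) he
    refine no_labels2 (Nat.ofBits fun i : Fin 10 => χ' (rep2 i).1 (rep2 i).2)
      (Nat.ofBits_lt_two_pow _) m ?_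
    intro a b c d hab hcd h1 h2 h3 h4 h5 h6
    rw [← hp a b hab.ne] at h1
    rw [← hp c d hcd.ne] at h2
    exact hm a b c d hab hcd h1 h2 h3 h4 h5 h6

end Run7.h538.K9
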