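import Pool.Agent.Run7.h538.K9Cert

set_option autoImplicit false

/-! Permutations that exchange a self-complementary colouring with its complement. -/

namespace Run7.h538.K9

open Equiv

lemma anti_pow {V : Type*} (φ : Perm V) (χ : V → V → Bool)
    (ha : ∀ u v, u ≠ v → χ (φ u) (φ v) = !χ u v) (k : ℕ) (u v : V) (h : u ≠ v) :
    χ ((φ ^ k) u) ((φ ^ k) v) = (χ u v ^^ (k % 2 == 1)) := by
  induction k with
  | zero => simp
  | succ k ih =>
    rw [pow_succ', Perm.mul_apply, Perm.mul_apply,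
      ha _ _ (fun hh => h ((φ ^ k).injective hh)), ih]
    rcases Nat.mod_two_eq_zero_or_one k with h0 | h0
    · have h1 : (k + 1) % 2 = 1 := by omega
      rw [h0, h1]; cases χ u v <;> rfl
    · have h1 : (k + 1) % 2 = 0 := by omega
      rw [h0, h1]; cases χ u v <;> rfl

lemma no_fix {V : Type*} (φ : Perm V) (χ : V → V → Bool)
    (ha : ∀ u v, u ≠ v → χ (φ u) (φ v) = !χ u v) (k : ℕ) (hk : k % 2 = 1) (u v : V)
    (h : u ≠ v) (hu : (φ ^ k) u = u) (hv : (φ ^ k) v = v) : False := by
  have := anti_pow φ χ ha k u v h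
  rw [hu, hv, hk] at this
  cases hχ : χ u v <;> rw [hχ] at this <;> simp at this

lemma no_swap {V : Type*} (φ : Perm V) (χ : V → V → Bool) (hs : ∀ u v, χ u v = χ v u)
    (ha : ∀ u v, u ≠ v → χ (φ u) (φ v) = !χ u v) (k : ℕ) (hk : k % 2 = 1) (u v : V)
    (h : u ≠ v) (hu : (φ ^ k) u = v) (hv : (φ ^ k) v = u) : False := by
  have := anti_pow φ χ ha k u v h
  rw [hu, hv, hk, hs v u] at this
  cases hχ : χ u v <;> rw [hχ] at this <;> simp at this

lemma four_dvd {V : Type*} [Fintype V] [DecidableEq V] (φ : Perm V) (χ : V → V → Bool)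
    (hs : ∀ u v, χ u v = χ v u)
    (ha : ∀ u v, u ≠ v → χ (φ u) (φ v) = !χ u v) (n : ℕ) (hn : n ∈ φ.cycleType) : 4 ∣ n := by
  obtain ⟨c, τ, hφ, hd, hc, hcard⟩ := Perm.mem_cycleType_iff.mp hn
  have hord : orderOf c = n := by rw [hc.orderOf, hcard]
  obtain ⟨x, hx, -⟩ := id hc
  have hτx : τ x = x := by
    rcases hd x with h | h
    · exact absurd h hx
    · exact h
  have hpow : ∀ k : ℕ, (φ ^ k) x = (c ^ k) x := by
    intro k
    rw [hφ, hd.commute.mul_pow, Perm.mul_apply]
    congr 1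
    exact Perm.pow_apply_eq_self_of_apply_eq_self hτx k
  have hn2 : 2 ≤ n := Perm.two_le_of_mem_cycleType hn
  have hfix : (φ ^ n) x = x := by
    rw [hpow, ← hord, pow_orderOf_eq_one, Perm.one_apply]
  have hφx : φ x ≠ x := by
    have := hpow 1
    rw [pow_one, pow_one] at this
    rw [this]; exact hx
  have hne : ∀ k : ℕ, 0 < k → k < n → (φ ^ k) x ≠ x := by
    intro k h0 hk h
    rw [hpow] at h
    have h1 : c ^ k = 1 := (hc.pow_eq_one_iff' hx).mpr h
    have := orderOf_dvd_of_pow_eq_one h1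
    rw [hord] at this
    exact absurd (Nat.le_of_dvd h0 this) (by omega)
  by_contra h4
  rcases Nat.mod_two_eq_zero_or_one n with h0 | h1
  · -- n = 2 mod 4
    have h2 : (n / 2) % 2 = 1 := by omega
    have h3 : n / 2 + n / 2 = n := by omega
    refine no_swap φ χ hs ha (n / 2) h2 x ((φ ^ (n / 2)) x) (hne _ (by omega) (by omega)).symm rfl ?_
    rw [← Perm.mul_apply, ← pow_add, h3, hfix]
  · refine no_fix φ χ ha n h1 x (φ x) hφx.symm hfix ?_
    rw [← Perm.mul_apply, ← pow_succ, pow_succ', Perm.mul_apply, hfix]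

/-- the eight-cycle with one fixed point -/
def s1 : Perm (Fin 9) where
  toFun := ![1, 2, 3, 4, 5, 6, 7, 0, 8]
  invFun := ![7, 0, 1, 2, 3, 4, 5, 6, 8]
  left_inv := by decide
  right_inv := by decide

def s2a : Perm (Fin 9) where
  toFun := ![1, 2, 3, 0, 4, 5, 6, 7, 8]
  invFun := ![3, 0, 1, 2, 4, 5, 6, 7, 8]
  left_inv := by decide
  right_inv := by decide

def s2b : Perm (Fin 9) where
  toFun := ![0, 1, 2, 3, 5, 6, 7, 4, 8]
  invFun := ![0, 1, 2, 3, 7, 4, 5, 6, 8]
  left_inv := by decide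
  right_inv := by decide

/-- two four-cycles with one fixed point -/
def s2 : Perm (Fin 9) := s2a * s2b

lemma cyc_of {V : Type*} (f : Perm V) (x : V) (hx : f x ≠ x)
    (h : ∀ y, f y ≠ y → ∃ k : ℕ, (f ^ k) x = y) : f.IsCycle := by
  refine ⟨x, hx, fun y hy => ?_⟩
  obtain ⟨k, hk⟩ := h y hy
  exact ⟨k, by simpa using hk⟩

lemma s1_cycle : s1.IsCycle := by
  refine cyc_of s1 0 (by decide) ?_
  have : ∀ y : Fin 9, s1 y ≠ y → ∃ k : Fin 8, (s1 ^ (k : ℕ)) 0 = y := by decide +kernel
  intro y hy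
  obtain ⟨k, hk⟩ := this y hy
  exact ⟨k, hk⟩

lemma s2a_cycle : s2a.IsCycle := by
  refine cyc_of s2a 0 (by decide) ?_
  have : ∀ y : Fin 9, s2a y ≠ y → ∃ k : Fin 8, (s2a ^ (k : ℕ)) 0 = y := by decide +kernel
  intro y hy
  obtain ⟨k, hk⟩ := this y hy
  exact ⟨k, hk⟩

lemma s2b_cycle : s2b.IsCycle := by
  refine cyc_of s2b 4 (by decide) ?_
  have : ∀ y : Fin 9, s2b y ≠ y → ∃ k : Fin 8, (s2b ^ (k : ℕ)) 4 = y := by decide +kernel
  intro y hy
  obtain ⟨k, hk⟩ := this y hy
  exact ⟨k, hk⟩

lemma s1_type : s1.cycleType = {8} := by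
  rw [s1_cycle.cycleType]
  have : s1.support.card = 8 := by decide +kernel
  rw [this]

lemma s2_type : s2.cycleType = {4, 4} := by
  have hd : Perm.Disjoint s2a s2b := by
    intro x; revert x; decide
  rw [s2, hd.cycleType_mul, s2a_cycle.cycleType, s2b_cycle.cycleType]
  have h1 : s2a.support.card = 4 := by decide +kernel
  have h2 : s2b.support.card = 4 := by decide +kernel
  rw [h1, h2]
  rfl

lemma multiset_shape (T : Multiset ℕ) (h4 : ∀ n ∈ T, 4 ∣ n) (h2 : ∀ n ∈ T, 2 ≤ n)
    (hs : T.sum = 8) : T = {8} ∨ T = {4, 4} := by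
  have hz : ∀ S : Multiset ℕ, (∀ n ∈ S, 2 ≤ n) → S.sum = 0 → S = 0 := by
    intro S hS h0
    induction S using Multiset.induction_on with
    | empty => rfl
    | cons a S _ =>
      rw [Multiset.sum_cons] at h0
      have := hS a (by simp)
      omega
  induction T using Multiset.induction_on with
  | empty => simp at hs
  | cons a S _ =>
    rw [Multiset.sum_cons] at hs
    obtain ⟨a', ha'⟩ := h4 a (by simp)
    have h2a := h2 a (by simp)
    have : a = 4 ∨ a = 8 := by omega
    rcases this with rfl | rfl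
    · right
      have hS : S.sum = 4 := by omega
      clear ha'
      induction S using Multiset.induction_on with
      | empty => simp at hS
      | cons b R _ =>
        rw [Multiset.sum_cons] at hS
        obtain ⟨b', hb'⟩ := h4 b (by simp)
        have h2b := h2 b (by simp)
        have hb4 : b = 4 := by omega
        subst hb4
        have hR : R = 0 := hz R (fun n hn => h2 n (by simp [hn])) (by omega)
        subst hR
        rfl
    · left
      have hS : S = 0 := hz S (fun n hn => h2 n (by simp [hn])) (by omega)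
      subst hS
      rfl

theorem anti_type (φ : Perm (Fin 9)) (χ : Fin 9 → Fin 9 → Bool) (hs : ∀ u v, χ u v = χ v u)
    (ha : ∀ u v, u ≠ v → χ (φ u) (φ v) = !χ u v) : IsConj φ s1 ∨ IsConj φ s2 := by
  have h4 := four_dvd φ χ hs ha
  have hsum : φ.cycleType.sum = 8 := by
    have hdvd : 4 ∣ φ.cycleType.sum := Multiset.dvd_sum h4
    rw [Perm.sum_cycleType] at hdvd ⊢
    have hle : φ.support.card ≤ 9 := by
      have := Finset.card_le_univ φ.support
      simpa using this
    have hcompl : φ.supportᶜ.card ≤ 1 := by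
      rw [Finset.card_le_one]
      intro a hfa b hfb
      rw [Finset.mem_compl, Perm.notMem_support] at hfa hfb
      by_contra hab
      exact no_fix φ χ ha 1 rfl a b hab (by simpa using hfa) (by simpa using hfb)
    have hc : φ.supportᶜ.card = 9 - φ.support.card := by
      rw [Finset.card_compl]; rfl
    omega
  have h2 : ∀ n ∈ φ.cycleType, 2 ≤ n := fun n hn => Perm.two_le_of_mem_cycleType hn
  rcases multiset_shape _ h4 h2 hsum with h | h
  · left
    rw [Perm.isConj_iff_cycleType_eq, h, s1_type]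
  · right
    rw [Perm.isConj_iff_cycleType_eq, h, s2_type]

end Run7.h538.K9
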