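import Pool.Agent.Run7.h538.K9Fam
import Pool.Agent.Helper770.Straight

set_option autoImplicit false

/-! The topological part: a plane without crossings gives labels. -/

namespace Run7.h538.K9

open Equiv Set Pool.Agent.Helper770.VanKampen

/-- clamping to the unit interval -/
noncomputable def clamp (t : ℝ) : ℝ := max 0 (min t 1)

lemma clamp_cont : Continuous clamp := by unfold clamp; fun_prop

lemma clamp_mem (t : ℝ) : clamp t ∈ Icc (0 : ℝ) 1 :=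
  ⟨le_max_left _ _, max_le zero_le_one (min_le_right _ _)⟩

lemma clamp_zero : clamp 0 = 0 := by simp [clamp]
lemma clamp_one : clamp 1 = 1 := by simp [clamp]

lemma clamp_cases (t : ℝ) : clamp t = 0 ∨ clamp t = 1 ∨ (0 < clamp t ∧ clamp t < 1) := by
  obtain ⟨h0, h1⟩ := clamp_mem t
  rcases h0.eq_or_lt with h | h
  · exact Or.inl h.symm
  · rcases h1.eq_or_lt with h' | h'
    · exact Or.inr (Or.inl h')
    · exact Or.inr (Or.inr ⟨h, h'⟩)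

theorem labels_of_plane (p : Fin 9 → ℂ) (hp : Function.Injective p) (E : Fin 9 → Fin 9 → Prop)
    (γ : Fin 9 → Fin 9 → ℝ → ℂ)
    (hc : ∀ a b, a ≠ b → E a b → ContinuousOn (γ a b) (Icc 0 1))
    (h0 : ∀ a b, a ≠ b → E a b → γ a b 0 = p a)
    (h1 : ∀ a b, a ≠ b → E a b → γ a b 1 = p b)
    (hv : ∀ a b, a ≠ b → E a b → ∀ t : ℝ, 0 < t → t < 1 → ∀ w, γ a b t ≠ p w)
    (hX : ∀ a b c d, a ≠ b → c ≠ d → E a b → E c d → a ≠ c → a ≠ d → b ≠ c → b ≠ d →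
      ∀ s t : ℝ, 0 < s → s < 1 → 0 < t → t < 1 → γ a b s ≠ γ c d t)
    (e : Perm (Fin 9)) :
    ∃ m : Fin 9 → Fin 9 → Fin 9 → ZMod 2, ∀ a b c d : Fin 9, a < b → c < d → E (e a) (e b) →
      E (e c) (e d) → a ≠ c → a ≠ d → b ≠ c → b ≠ d →
      beta a b c d = m a b c + m a b d + m c d a + m c d b := by
  have ne : ∀ {x y : Fin 9}, x ≠ y → e x ≠ e y := fun h h' => h (e.injective h')
  have hvg : ∀ a b w : Fin 9, a ≠ b → E a b → w ≠ a → w ≠ b → ∀ t, γ a b (clamp t) ≠ p w := by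
    intro a b w hab hE hwa hwb t
    rcases clamp_cases t with h | h | ⟨h, h'⟩
    · rw [h, h0 a b hab hE]; exact fun hh => hwa (hp hh).symm
    · rw [h, h1 a b hab hE]; exact fun hh => hwb (hp hh).symm
    · exact hv a b hab hE _ h h' w
  obtain ⟨m, hm⟩ := exists_labels (fun a => p (e a)) (hp.comp e.injective)
    (fun a b => E (e a) (e b)) (fun a b t => γ (e a) (e b) (clamp t))
    (fun a b hab hE => (hc _ _ (ne hab.ne) hE).comp_continuous clamp_cont clamp_mem)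
    (fun a b hab hE => by rw [clamp_zero]; exact h0 _ _ (ne hab.ne) hE)
    (fun a b hab hE => by rw [clamp_one]; exact h1 _ _ (ne hab.ne) hE)
    (fun a b w hab hE hwa hwb t => hvg _ _ _ (ne hab.ne) hE (ne hwa) (ne hwb) t)
  refine ⟨m, ?_⟩
  intro a b c d hab hcd hE hE' hac had hbc hbd
  refine hm a b c d hab hcd hE hE' hac had hbc hbd ?_
  intro s t
  have Nab := ne hab.ne
  have Ncd := ne hcd.ne
  rcases clamp_cases s with h | h | ⟨h, h'⟩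
  · rw [h, h0 _ _ Nab hE]
    exact (hvg _ _ _ Ncd hE' (ne hac) (ne had) t).symm
  · rw [h, h1 _ _ Nab hE]
    exact (hvg _ _ _ Ncd hE' (ne hbc) (ne hbd) t).symm
  · rcases clamp_cases t with k | k | ⟨k, k'⟩
    · rw [k, h0 _ _ Ncd hE']
      exact hv _ _ Nab hE _ h h' _
    · rw [k, h1 _ _ Ncd hE']
      exact hv _ _ Nab hE _ h h' _
    · exact hX _ _ _ _ Nab Ncd hE hE' (ne hac) (ne had) (ne hbc) (ne hbd) _ _ h h' k k'

/-- the ordered crossings, as in the frozen statement -/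
def XS (c : Fin 9 → Fin 9 → Fin 2) (γ : Fin 2 → Fin 9 → Fin 9 → ℝ → ℂ) :
    Set (Fin 2 × Fin 9 × Fin 9 × Fin 9 × Fin 9 × ℂ) :=
  {x : Fin 2 × Fin 9 × Fin 9 × Fin 9 × Fin 9 × ℂ |
    (⊤ : SimpleGraph (Fin 9)).Adj x.2.1 x.2.2.1 ∧
    (⊤ : SimpleGraph (Fin 9)).Adj x.2.2.2.1 x.2.2.2.2.1 ∧
    c x.2.1 x.2.2.1 = x.1 ∧ c x.2.2.2.1 x.2.2.2.2.1 = x.1 ∧
    ¬ (x.2.1 = x.2.2.2.1 ∧ x.2.2.1 = x.2.2.2.2.1) ∧
    ¬ (x.2.1 = x.2.2.2.2.1 ∧ x.2.2.1 = x.2.2.2.1) ∧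
    (∃ t : ℝ, 0 < t ∧ t < 1 ∧ γ x.1 x.2.1 x.2.2.1 t = x.2.2.2.2.2) ∧
    (∃ t : ℝ, 0 < t ∧ t < 1 ∧ γ x.1 x.2.2.2.1 x.2.2.2.2.1 t = x.2.2.2.2.2)}

/-- the conditions of the frozen statement on a drawing -/
def Dr (c : Fin 9 → Fin 9 → Fin 2) (p : Fin 2 → Fin 9 → ℂ)
    (γ : Fin 2 → Fin 9 → Fin 9 → ℝ → ℂ) : Prop :=
  (∀ u v : Fin 9, (⊤ : SimpleGraph (Fin 9)).Adj u v → c u v = c v u) ∧
  (∀ i : Fin 2, Function.Injective (p i)) ∧
  (∀ i : Fin 2, ∀ u v : Fin 9, (⊤ : SimpleGraph (Fin 9)).Adj u v → c u v = i →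
    ContinuousOn (γ i u v) (Set.Icc (0:ℝ) 1) ∧
    Set.InjOn (γ i u v) (Set.Icc (0:ℝ) 1) ∧
    γ i u v 0 = p i u ∧ γ i u v 1 = p i v ∧
    (∀ t : ℝ, 0 ≤ t → t ≤ 1 → γ i v u t = γ i u v (1 - t)) ∧
    ∀ t : ℝ, 0 < t → t < 1 → ∀ w : Fin 9, γ i u v t ≠ p i w)

lemma fin2_flip (x y : Fin 2) (h : x = 0 ↔ y = 1) (i : Fin 2) :
    decide (y = i) = !decide (x = i) := by
  revert x y i; decide

theorem no_empty_plane (c : Fin 9 → Fin 9 → Fin 2) (p : Fin 2 → Fin 9 → ℂ)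
    (γ : Fin 2 → Fin 9 → Fin 9 → ℝ → ℂ) (hD : Dr c p γ)
    (hiso : Nonempty (SimpleGraph.fromRel
        (fun u v => (⊤ : SimpleGraph (Fin 9)).Adj u v ∧ c u v = 0) ≃g
      SimpleGraph.fromRel (fun u v => (⊤ : SimpleGraph (Fin 9)).Adj u v ∧ c u v = 1)))
    (i : Fin 2) : ∃ x ∈ XS c γ, x.1 = i := by
  by_contra hno
  push Not at hno
  obtain ⟨hsym, hinj, hγ⟩ := hD
  obtain ⟨f⟩ := hiso
  have hsym' : ∀ u v : Fin 9, u ≠ v → c u v = c v u := fun u v h =>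
    hsym u v ((SimpleGraph.top_adj u v).mpr h)
  have hflip : ∀ u v : Fin 9, u ≠ v → (c u v = 0 ↔ c (f u) (f v) = 1) := by
    intro u v huv
    have hfuv : f u ≠ f v := fun h => huv (f.injective h)
    have := f.map_rel_iff (a := u) (b := v)
    rw [SimpleGraph.fromRel_adj, SimpleGraph.fromRel_adj, SimpleGraph.top_adj,
      SimpleGraph.top_adj, SimpleGraph.top_adj, SimpleGraph.top_adj] at this
    constructor
    · intro h
      obtain ⟨-, h2⟩ := this.mpr ⟨huv, Or.inl ⟨huv, h⟩⟩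
      rcases h2 with h2 | h2
      · exact h2.2
      · rw [hsym' _ _ hfuv]; exact h2.2
    · intro h
      obtain ⟨-, h2⟩ := this.mp ⟨hfuv, Or.inl ⟨hfuv, h⟩⟩
      rcases h2 with h2 | h2
      · exact h2.2
      · rw [hsym' _ _ huv]; exact h2.2
  refine no_labels_anti f.toEquiv (fun u v => decide (c u v = i)) ?_ ?_ ?_
  · intro u v
    by_cases h : u = v
    · rw [h]
    · simp only [hsym' u v h]
  · intro u v huv
    exact fin2_flip _ _ (hflip u v huv) i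
  · intro e
    obtain ⟨m, hm⟩ := labels_of_plane (p i) (hinj i) (fun a b => c a b = i) (γ i)
      (fun a b hab hE => (hγ i a b ((SimpleGraph.top_adj a b).mpr hab) hE).1)
      (fun a b hab hE => (hγ i a b ((SimpleGraph.top_adj a b).mpr hab) hE).2.2.1)
      (fun a b hab hE => (hγ i a b ((SimpleGraph.top_adj a b).mpr hab) hE).2.2.2.1)
      (fun a b hab hE => (hγ i a b ((SimpleGraph.top_adj a b).mpr hab) hE).2.2.2.2.2)
      (by
        intro a b c' d hab hcd hE hE' hac had hbc hbd s t hs0 hs1 ht0 ht1 heq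
        refine hno (i, a, b, c', d, γ i a b s) ?_ rfl
        refine ⟨(SimpleGraph.top_adj a b).mpr hab, (SimpleGraph.top_adj c' d).mpr hcd, hE, hE',
          fun h => hac h.1, fun h => had h.1, ⟨s, hs0, hs1, rfl⟩, ⟨t, ht0, ht1, heq.symm⟩⟩) e
    refine ⟨m, fun a b c' d hab hcd h1 h2 => hm a b c' d hab hcd ?_ ?_⟩
    · exact of_decide_eq_true h1
    · exact of_decide_eq_true h2

/-- the eight orders of a crossing -/
def L4 (u v w z : Fin 9) : List (Fin 9 × Fin 9 × Fin 9 × Fin 9) :=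
  [(u, v, w, z), (v, u, w, z), (u, v, z, w), (v, u, z, w),
   (w, z, u, v), (z, w, u, v), (w, z, v, u), (z, w, v, u)]

lemma L4_nodup : ∀ u v w z : Fin 9, u ≠ v → w ≠ z → ¬ (u = w ∧ v = z) → ¬ (u = z ∧ v = w) →
    (L4 u v w z).Nodup := by
  decide +kernel

theorem nine_le (c : Fin 9 → Fin 9 → Fin 2) (p : Fin 2 → Fin 9 → ℂ)
    (γ : Fin 2 → Fin 9 → Fin 9 → ℝ → ℂ) (hD : Dr c p γ) (hfin : (XS c γ).Finite)
    (H : ∀ i : Fin 2, ∃ x ∈ XS c γ, x.1 = i) : 9 ≤ (XS c γ).ncard := by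
  classical
  obtain ⟨hsym, hinj, hγ⟩ := hD
  obtain ⟨x0, hx0, hi0⟩ := H 0
  obtain ⟨x1, hx1, hi1⟩ := H 1
  obtain ⟨i, u, v, w, z, q⟩ := x0
  simp only at hi0
  subst hi0
  obtain ⟨a1, a2, a3, a4, a5, a6, ⟨s, hs0, hs1, hs⟩, ⟨t, ht0, ht1, ht⟩⟩ := hx0
  simp only at a1 a2 a3 a4 a5 a6 hs ht
  have r1 := (hγ 0 u v a1 a3).2.2.2.2.1
  have r2 := (hγ 0 w z a2 a4).2.2.2.2.1
  have hs' : γ 0 v u (1 - s) = q := by
    rw [r1 (1 - s) (by linarith) (by linarith), sub_sub_cancel, hs]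
  have ht' : γ 0 z w (1 - t) = q := by
    rw [r2 (1 - t) (by linarith) (by linarith), sub_sub_cancel, ht]
  have E1 : ∃ t : ℝ, 0 < t ∧ t < 1 ∧ γ 0 u v t = q := ⟨s, hs0, hs1, hs⟩
  have E2 : ∃ t : ℝ, 0 < t ∧ t < 1 ∧ γ 0 v u t = q := ⟨1 - s, by linarith, by linarith, hs'⟩
  have E3 : ∃ t : ℝ, 0 < t ∧ t < 1 ∧ γ 0 w z t = q := ⟨t, ht0, ht1, ht⟩
  have E4 : ∃ t : ℝ, 0 < t ∧ t < 1 ∧ γ 0 z w t = q := ⟨1 - t, by linarith, by linarith, ht'⟩
  have b1 := a1.symm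
  have b2 := a2.symm
  have b3 : c v u = 0 := (hsym u v a1).symm.trans a3
  have b4 : c z w = 0 := (hsym w z a2).symm.trans a4
  let F : Fin 9 × Fin 9 × Fin 9 × Fin 9 → Fin 2 × Fin 9 × Fin 9 × Fin 9 × Fin 9 × ℂ :=
    fun y => (0, y.1, y.2.1, y.2.2.1, y.2.2.2, q)
  have hFinj : Function.Injective F := by
    rintro ⟨y1, y2, y3, y4⟩ ⟨z1, z2, z3, z4⟩ h
    simp only [F, Prod.mk.injEq] at h
    obtain ⟨-, h1, h2, h3, h4, -⟩ := h
    rw [h1, h2, h3, h4]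
  have hnd := L4_nodup u v w z ((SimpleGraph.top_adj u v).mp a1) ((SimpleGraph.top_adj w z).mp a2)
    a5 a6
  let L := x1 :: (L4 u v w z).map F
  have hL : L.Nodup := by
    rw [List.nodup_cons]
    refine ⟨?_, hnd.map hFinj⟩
    intro hmem
    obtain ⟨y, -, hy⟩ := List.mem_map.mp hmem
    have : x1.1 = 0 := by rw [← hy]
    rw [hi1] at this
    exact absurd this (by decide)
  have hsub : (↑L.toFinset : Set (Fin 2 × Fin 9 × Fin 9 × Fin 9 × Fin 9 × ℂ)) ⊆ XS c γ := by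
    intro x hx
    rw [List.coe_toFinset] at hx
    rcases List.mem_cons.mp hx with h | h
    · rw [h]; exact hx1
    · obtain ⟨y, hy, rfl⟩ := List.mem_map.mp h
      simp only [L4, List.mem_cons, List.not_mem_nil, or_false] at hy
      rcases hy with rfl | rfl | rfl | rfl | rfl | rfl | rfl | rfl
      · exact ⟨a1, a2, a3, a4, a5, a6, E1, E3⟩
      · exact ⟨b1, a2, b3, a4, fun h => a6 ⟨h.2, h.1⟩, fun h => a5 ⟨h.2, h.1⟩, E2, E3⟩
      · exact ⟨a1, b2, a3, b4, a6, a5, E1, E4⟩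
      · exact ⟨b1, b2, b3, b4, fun h => a5 ⟨h.2, h.1⟩, fun h => a6 ⟨h.2, h.1⟩, E2, E4⟩
      · exact ⟨a2, a1, a4, a3, fun h => a5 ⟨h.1.symm, h.2.symm⟩, fun h => a6 ⟨h.2.symm, h.1.symm⟩,
          E3, E1⟩
      · exact ⟨b2, a1, b4, a3, fun h => a6 ⟨h.1.symm, h.2.symm⟩, fun h => a5 ⟨h.2.symm, h.1.symm⟩,
          E4, E1⟩
      · exact ⟨a2, b1, a4, b3, fun h => a6 ⟨h.2.symm, h.1.symm⟩, fun h => a5 ⟨h.1.symm, h.2.symm⟩,
          E3, E2⟩
      · exact ⟨b2, b1, b4, b3, fun h => a5 ⟨h.2.symm, h.1.symm⟩, fun h => a6 ⟨h.1.symm, h.2.symm⟩,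
          E4, E2⟩
  have hcard : L.toFinset.card = 9 := by
    rw [List.toFinset_card_of_nodup hL]; rfl
  have h := Set.ncard_le_ncard hsub hfin
  rw [Set.ncard_coe_finset, hcard] at h
  exact h

end Run7.h538.K9
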