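import Pool.Agent.Run7.h538.OsaTrans
import Pool.Agent.Helper929.Pfaffian

set_option autoImplicit false

/-! The Pfaffian identity. -/

namespace Run7.h538.Osa

open Finset Pool.Agent.Helper929

/-- The skew-symmetric matrix with rows and columns `0, ..., 2n+1`: entry `cc a b` for
`a, b ≤ 2n`, last column `w`. -/
noncomputable def arr (n : ℕ) (w : ℕ → ℚ) : Matrix (Fin (2 * n + 2)) (Fin (2 * n + 2)) ℚ :=
  Matrix.of fun a b =>
    if (a : ℕ) ≤ 2 * n then (if (b : ℕ) ≤ 2 * n then cc a b else w a)
    else (if (b : ℕ) ≤ 2 * n then - w b else 0)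

lemma arr_skew (n : ℕ) (w : ℕ → ℚ) (a b : Fin (2 * n + 2)) : arr n w a b = - arr n w b a := by
  simp only [arr, Matrix.of_apply]
  split_ifs
  · exact cc_skew _ _
  · ring
  · ring
  · ring

/-- change of basis -/
noncomputable def PM (n : ℕ) : Matrix (Fin (2 * n + 2)) (Fin (2 * n + 2)) ℂ :=
  Matrix.of fun a b =>
    if (a : ℕ) ≤ 2 * n then
      (if (b : ℕ) ≤ 2 * n then Complex.I * ((-1) ^ (b : ℕ) * ((a : ℕ).choose b : ℂ)) else 0)
    else (if (b : ℕ) ≤ 2 * n then 0 else - Complex.I)

lemma PM_det (n : ℕ) : (PM n).det = 1 := by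
  rw [Matrix.det_of_isLowerTriangular]
  · rw [Fin.prod_univ_castSucc]
    have h1 : PM n (Fin.last _) (Fin.last _) = - Complex.I := by
      simp [PM]
    have h2 : ∀ i : Fin (2 * n + 1), PM n i.castSucc i.castSucc = Complex.I * (-1) ^ (i : ℕ) := by
      intro i
      have : (i : ℕ) ≤ 2 * n := by omega
      simp [PM, this]
    rw [h1, Finset.prod_congr rfl (fun i _ => h2 i)]
    have h3 : ∀ n : ℕ, ∏ i : Fin (2 * n + 1), Complex.I * (-1) ^ (i : ℕ) = Complex.I := by
      intro n
      rw [Fin.prod_univ_eq_prod_range (fun i => Complex.I * (-1) ^ i) (2 * n + 1)]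
      induction n with
      | zero => simp
      | succ n ih =>
        rw [show 2 * (n + 1) + 1 = 2 * n + 1 + 1 + 1 by ring, prod_range_succ, prod_range_succ, ih]
        have e1 : (-1 : ℂ) ^ (2 * n + 1) = -1 := by
          rw [pow_succ, pow_mul]; norm_num
        have e2 : (-1 : ℂ) ^ (2 * n + 1 + 1) = 1 := by
          rw [pow_succ, e1]; norm_num
        rw [e1, e2]
        linear_combination (- Complex.I) * Complex.I_sq
    rw [h3]
    linear_combination (-1) * Complex.I_sq
  · intro i j hij
    have hij' : i < j := by simpa using hij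
    have hv : (i : ℕ) < j := hij'
    simp only [PM, Matrix.of_apply]
    split_ifs
    · rw [Nat.choose_eq_zero_of_lt hv]; simp
    · rfl
    · rfl
    · exfalso; have := j.isLt; omega

lemma sum_split (n : ℕ) (f : Fin (2 * n + 2) → ℂ) (g : ℕ → ℂ) (z : ℂ)
    (h : ∀ i : Fin (2 * n + 2), (i : ℕ) ≤ 2 * n → f i = g i)
    (hz : f (Fin.last _) = z) : ∑ i, f i = (∑ i ∈ range (2 * n + 1), g i) + z := by
  rw [Fin.sum_univ_castSucc, hz]
  congr 1
  rw [← Fin.sum_univ_eq_sum_range g (2 * n + 1)]
  apply sum_congr rfl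
  intro i _
  exact h _ (by simp; omega)

lemma range_cut (a n : ℕ) (h : a ≤ 2 * n) (g : ℕ → ℂ) (hg : ∀ i, a < i → g i = 0) :
    ∑ i ∈ range (2 * n + 1), g i = ∑ i ∈ range (a + 1), g i := by
  symm
  apply sum_subset
  · intro i hi
    rw [mem_range] at hi ⊢
    omega
  · intro i _ hi
    rw [mem_range] at hi
    exact hg i (by omega)

lemma PM_conj (n : ℕ) (w : ℕ → ℚ) :
    PM n * (arr n w).map (algebraMap ℚ ℂ) * (PM n).transpose =
      (arr n (T w)).map (algebraMap ℚ ℂ) := by
  ext a b
  rw [Matrix.mul_apply]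
  simp only [Matrix.mul_apply, Matrix.transpose_apply, Matrix.map_apply]
  -- inner sums
  have inner : ∀ (a j : Fin (2 * n + 2)), ∑ i, PM n a i * (algebraMap ℚ ℂ) (arr n w i j) =
      if (a : ℕ) ≤ 2 * n then
        (if (j : ℕ) ≤ 2 * n then ∑ i ∈ range ((a : ℕ) + 1),
          Complex.I * ((-1) ^ i * ((a : ℕ).choose i : ℂ)) * (algebraMap ℚ ℂ) (cc i j)
        else Complex.I * (algebraMap ℚ ℂ) (T w a))
      else (if (j : ℕ) ≤ 2 * n then Complex.I * (algebraMap ℚ ℂ) (w j) else 0) := by
    intro a j
    by_cases ha : (a : ℕ) ≤ 2 * n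
    · rw [if_pos ha]
      by_cases hj : (j : ℕ) ≤ 2 * n
      · rw [if_pos hj, sum_split n _ (fun i => Complex.I * ((-1) ^ i * ((a : ℕ).choose i : ℂ)) *
          (algebraMap ℚ ℂ) (cc i j)) 0 ?_ ?_, add_zero]
        · apply range_cut _ _ ha
          intro i hi
          rw [Nat.choose_eq_zero_of_lt hi]; simp
        · intro i hi
          simp [PM, arr, ha, hi, hj]
        · simp [PM, ha]
      · rw [if_neg hj, sum_split n _ (fun i => Complex.I * ((-1) ^ i * ((a : ℕ).choose i : ℂ)) *
          (algebraMap ℚ ℂ) (w i)) 0 ?_ ?_, add_zero]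
        · rw [range_cut _ _ ha _ (by
            intro i hi
            rw [Nat.choose_eq_zero_of_lt hi]; simp)]
          unfold T
          rw [map_sum, mul_sum]
          apply sum_congr rfl
          intro i _
          simp
          ring
        · intro i hi
          simp [PM, arr, ha, hi, hj]
        · simp [PM, ha]
    · rw [if_neg ha]
      by_cases hj : (j : ℕ) ≤ 2 * n
      · rw [if_pos hj, sum_split n _ (fun i => 0) (Complex.I * (algebraMap ℚ ℂ) (w j)) ?_ ?_]
        · simp
        · intro i hi
          simp [PM, ha, hi]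
        · simp [PM, arr, ha, hj]
      · rw [if_neg hj, sum_split n _ (fun i => 0) 0 ?_ ?_]
        · simp
        · intro i hi
          simp [PM, ha, hi]
        · simp [PM, arr, ha, hj]
  simp only [inner]
  by_cases hb : (b : ℕ) ≤ 2 * n
  · by_cases ha : (a : ℕ) ≤ 2 * n
    · simp only [ha, if_true]
      rw [sum_split n _ (fun j => (∑ i ∈ range ((a : ℕ) + 1),
        Complex.I * ((-1) ^ i * ((a : ℕ).choose i : ℂ)) * (algebraMap ℚ ℂ) (cc i j)) *
          (Complex.I * ((-1) ^ j * ((b : ℕ).choose j : ℂ)))) 0 ?_ ?_, add_zero]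
      · rw [range_cut _ _ hb _ (by
          intro j hj
          rw [Nat.choose_eq_zero_of_lt hj]; simp)]
        have h1 : arr n (T w) a b = cc a b := by simp [arr, ha, hb]
        have h2 : cc (a : ℕ) b = - ∑ i ∈ range ((a : ℕ) + 1), ∑ j ∈ range ((b : ℕ) + 1),
            ((-1) ^ i * (((a : ℕ).choose i : ℕ) : ℚ)) * ((-1) ^ j * (((b : ℕ).choose j : ℕ) : ℚ)) *
              cc i j := by
          rw [U_cc]; ring
        rw [h1, h2, map_neg, map_sum]
        simp only [sum_mul, map_sum]
        rw [sum_comm, ← sum_neg_distrib]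
        apply sum_congr rfl
        intro i _
        rw [← sum_neg_distrib]
        apply sum_congr rfl
        intro j _
        simp only [map_mul, map_pow, map_neg, map_one, map_natCast]
        linear_combination ((-1) ^ i * (((a : ℕ).choose i : ℕ) : ℂ)) *
          ((-1) ^ j * (((b : ℕ).choose j : ℕ) : ℂ)) * (algebraMap ℚ ℂ) (cc i j) * Complex.I_sq
      · intro j hj
        simp [PM, hb, hj]
      · simp [PM, hb]
    · simp only [ha, if_false]
      rw [sum_split n _ (fun j => (Complex.I * (algebraMap ℚ ℂ) (w j)) *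
          (Complex.I * ((-1) ^ j * ((b : ℕ).choose j : ℂ)))) 0 ?_ ?_, add_zero]
      · rw [range_cut _ _ hb _ (by
          intro j hj
          rw [Nat.choose_eq_zero_of_lt hj]; simp)]
        have h1 : arr n (T w) a b = - T w b := by simp [arr, ha, hb]
        rw [h1, map_neg]
        unfold T
        rw [map_sum, ← sum_neg_distrib]
        apply sum_congr rfl
        intro j _
        simp only [map_mul, map_pow, map_neg, map_one, map_natCast]
        linear_combination ((-1) ^ j * (((b : ℕ).choose j : ℕ) : ℂ)) *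
          (algebraMap ℚ ℂ) (w j) * Complex.I_sq
      · intro j hj
        simp [PM, hb, hj]
      · simp [PM, hb]
  · by_cases ha : (a : ℕ) ≤ 2 * n
    · simp only [ha, if_true]
      have h1 : arr n (T w) a b = T w a := by simp [arr, ha, hb]
      rw [sum_split n _ (fun j => 0) ((algebraMap ℚ ℂ) (T w a)) ?_ ?_, h1]
      · simp
      · intro j hj
        simp [PM, hb, hj]
      · simp only [PM, Matrix.of_apply, hb, if_false, Fin.val_last]
        rw [if_neg (by omega), if_neg (by omega)]
        linear_combination (-(algebraMap ℚ ℂ) (T w a)) * Complex.I_sq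
    · simp only [ha, if_false]
      have h1 : arr n (T w) a b = 0 := by simp [arr, ha, hb]
      rw [sum_split n _ (fun j => 0) 0 ?_ ?_, h1]
      · simp
      · intro j hj
        simp [PM, hb, hj]
      · simp

/-- The Pfaffian does not change when the last column is transformed. -/
theorem pf_T (n : ℕ) (w : ℕ → ℚ) : pf (2 * n + 2) (arr n (T w)) = pf (2 * n + 2) (arr n w) := by
  have h := pf_gram ((arr n w).map (algebraMap ℚ ℂ)) (by
    intro i j
    simp only [Matrix.map_apply]
    rw [arr_skew n w i j, map_neg]) (PM n)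
  rw [PM_conj, PM_det, one_mul, ← pf_map, ← pf_map] at h
  exact (algebraMap ℚ ℂ).injective h

/-- The Pfaffian only depends on the entries above the diagonal. -/
theorem pf_upper : ∀ (N : ℕ) (A C : Matrix (Fin N) (Fin N) ℚ)
    (_ : ∀ i j : Fin N, i < j → A i j = C i j), pf N A = pf N C
  | 0, A, C, _ => by simp [pf]
  | 1, A, C, _ => by simp [pf]
  | (N + 2), A, C, h => by
    simp only [pf]
    apply sum_congr rfl
    intro j _
    rw [h 0 j.succ (Fin.succ_pos j), pf_upper N _ (C.submatrix _ _) ?_]
    intro i k hik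
    apply h
    rw [Fin.succ_lt_succ_iff]
    exact Fin.strictMono_succAbove j hik

/-- linearity in the last column -/
theorem pf_lin : ∀ (N : ℕ) (_ : N ≠ 0) (A B C : Matrix (Fin N) (Fin N) ℚ) (x y : ℚ)
    (_ : ∀ i j : Fin N, i < j → (j : ℕ) + 1 < N → A i j = C i j)
    (_ : ∀ i j : Fin N, i < j → (j : ℕ) + 1 < N → B i j = C i j)
    (_ : ∀ i j : Fin N, i < j → (j : ℕ) + 1 = N → C i j = x * A i j + y * B i j),
    pf N C = x * pf N A + y * pf N B
  | 0, h, _, _, _, _, _, _, _, _ => absurd rfl h
  | 1, _, A, B, C, x, y, _, _, _ => by simp [pf]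
  | (N + 2), _, A, B, C, x, y, hA, hB, hC => by
    simp only [pf]
    rw [mul_sum, mul_sum, ← sum_add_distrib]
    apply sum_congr rfl
    intro j _
    by_cases hj : (j : ℕ) = N
    · have hu : ∀ D : Matrix (Fin (N + 2)) (Fin (N + 2)) ℚ,
          (∀ i j : Fin (N + 2), i < j → (j : ℕ) + 1 < N + 2 → D i j = C i j) →
          pf N (D.submatrix (fun k => (j.succAbove k).succ) (fun k => (j.succAbove k).succ)) =
          pf N (C.submatrix (fun k => (j.succAbove k).succ) (fun k => (j.succAbove k).succ)) := by
        intro D hD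
        apply pf_upper
        intro i k hik
        apply hD
        · rw [Fin.succ_lt_succ_iff]
          exact Fin.strictMono_succAbove j hik
        · have h1 : j.succAbove k = k.castSucc := by
            apply Fin.succAbove_of_castSucc_lt
            rw [Fin.lt_def, Fin.val_castSucc, hj]
            exact k.isLt
          show ((j.succAbove k).succ : ℕ) + 1 < N + 2
          rw [h1]
          simp
      rw [hu A hA, hu B hB, hC 0 j.succ (Fin.succ_pos j) (by simp [hj])]
      ring
    · have hjN : (j : ℕ) < N := by have := j.isLt; omega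
      have hN : N ≠ 0 := by omega
      have e1 : A 0 j.succ = C 0 j.succ := hA 0 j.succ (Fin.succ_pos j) (by simp; omega)
      have e2 : B 0 j.succ = C 0 j.succ := hB 0 j.succ (Fin.succ_pos j) (by simp; omega)
      have hval : ∀ k : Fin N, ((j.succAbove k).succ : ℕ) + 1 < N + 2 ↔ (k : ℕ) + 1 < N := by
        intro k
        have hk := k.isLt
        rw [Fin.val_succ]
        by_cases hkj : (k : ℕ) < j
        · have h1 : j.succAbove k = k.castSucc := by
            apply Fin.succAbove_of_castSucc_lt
            rw [Fin.lt_def, Fin.val_castSucc]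
            exact hkj
          rw [h1, Fin.val_castSucc]
          omega
        · have h1 : j.succAbove k = k.succ := by
            apply Fin.succAbove_of_le_castSucc
            rw [Fin.le_def, Fin.val_castSucc]
            omega
          rw [h1, Fin.val_succ]
          omega
      rw [pf_lin N hN (A.submatrix (fun k => (j.succAbove k).succ) (fun k => (j.succAbove k).succ))
        (B.submatrix (fun k => (j.succAbove k).succ) (fun k => (j.succAbove k).succ)) _ x y ?_ ?_ ?_,
        e1, e2]
      · ring
      · intro i k hik hk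
        apply hA
        · rw [Fin.succ_lt_succ_iff]
          exact Fin.strictMono_succAbove j hik
        · exact (hval k).mpr hk
      · intro i k hik hk
        apply hB
        · rw [Fin.succ_lt_succ_iff]
          exact Fin.strictMono_succAbove j hik
        · exact (hval k).mpr hk
      · intro i k hik hk
        apply hC
        · rw [Fin.succ_lt_succ_iff]
          exact Fin.strictMono_succAbove j hik
        · have h1 := (hval k).not.mpr (by omega)
          have h2 := ((j.succAbove k).succ).isLt
          show ((j.succAbove k).succ : ℕ) + 1 = N + 2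
          omega

theorem pf_arr_lin (n : ℕ) (w1 w2 : ℕ → ℚ) (x y : ℚ) :
    pf (2 * n + 2) (arr n (fun a => x * w1 a + y * w2 a)) =
      x * pf (2 * n + 2) (arr n w1) + y * pf (2 * n + 2) (arr n w2) := by
  apply pf_lin _ (by omega)
  · intro i j hij hj
    have hi : (i : ℕ) ≤ 2 * n := by have := Fin.lt_def.mp hij; omega
    have hj' : (j : ℕ) ≤ 2 * n := by omega
    simp [arr, hi, hj']
  · intro i j hij hj
    have hi : (i : ℕ) ≤ 2 * n := by have := Fin.lt_def.mp hij; omega
    have hj' : (j : ℕ) ≤ 2 * n := by omega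
    simp [arr, hi, hj']
  · intro i j hij hj
    have hi : (i : ℕ) ≤ 2 * n := by have := Fin.lt_def.mp hij; omega
    have hj' : ¬ (j : ℕ) ≤ 2 * n := by omega
    simp [arr, hi, hj']

/-- The Pfaffian with last column `t ^ a` is invariant under `t ↦ 1 - t`. -/
theorem pf_pow (n : ℕ) (t : ℚ) :
    pf (2 * n + 2) (arr n (fun a => (1 - t) ^ a)) = pf (2 * n + 2) (arr n (fun a => t ^ a)) := by
  rw [← pf_T n (fun a => t ^ a)]
  congr 2
  funext a
  rw [T_pow]

theorem pf_identity (n : ℕ) :
    pf (2 * n + 2) (arr n (fun a => (-1) ^ a)) =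
      pf (2 * n + 2) (arr n (fun a => ((-1) ^ a + 2 ^ a) / 2)) := by
  have h1 := pf_arr_lin n (fun a => (-1) ^ a) (fun a => 2 ^ a) (1 / 2) (1 / 2)
  have h2 := pf_pow n (-1)
  have e : (1 - (-1) : ℚ) = 2 := by norm_num
  rw [e] at h2
  rw [h2] at h1
  have h3 : (fun a : ℕ => ((-1 : ℚ) ^ a + 2 ^ a) / 2) =
      fun a : ℕ => 1 / 2 * (-1 : ℚ) ^ a + 1 / 2 * 2 ^ a := by
    funext a; ring
  rw [h3, h1]
  ring

end Run7.h538.Osa
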