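import Mathlib

set_option autoImplicit false

/-! The array `c` with generating function `(y - x) / ((1 - x y) (1 - x - y))` and its binomial
transform. -/

namespace Run7.h538.Osa

open MvPowerSeries Finset

/-- the generating function `(y - x) / ((1 - x y) (1 - x - y))`, with `x = X 0` and `y = X 1` -/
noncomputable def genFun : MvPowerSeries (Fin 2) ℚ :=
  (X 1 - X 0) * ((1 - X 0 * X 1) * (1 - X 0 - X 1))⁻¹

/-- the coefficient of `x ^ a * y ^ b` in the generating function -/
noncomputable def cc (a b : ℕ) : ℚ :=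
  coeff (Finsupp.single 0 a + Finsupp.single 1 b) genFun

/-- coefficient with two indices -/
noncomputable def co (F : MvPowerSeries (Fin 2) ℚ) (a b : ℕ) : ℚ :=
  coeff (Finsupp.single 0 a + Finsupp.single 1 b) F

lemma le_iff0 (a b : ℕ) : Finsupp.single (0 : Fin 2) 1 ≤ Finsupp.single 0 a + Finsupp.single 1 b ↔
    1 ≤ a := by
  rw [Finsupp.single_le_iff]
  simp

lemma le_iff1 (a b : ℕ) : Finsupp.single (1 : Fin 2) 1 ≤ Finsupp.single 0 a + Finsupp.single 1 b ↔
    1 ≤ b := by
  rw [Finsupp.single_le_iff]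
  simp

lemma co_X0_succ (F : MvPowerSeries (Fin 2) ℚ) (a b : ℕ) : co (X 0 * F) (a + 1) b = co F a b := by
  unfold co
  have h : (Finsupp.single 0 (a + 1) + Finsupp.single 1 b - Finsupp.single 0 1 : Fin 2 →₀ ℕ) =
      Finsupp.single 0 a + Finsupp.single 1 b := by
    ext i
    fin_cases i <;> simp
  rw [X, coeff_monomial_mul, if_pos ((le_iff0 _ _).mpr (by omega)), one_mul, h]

lemma co_X0_zero (F : MvPowerSeries (Fin 2) ℚ) (b : ℕ) : co (X 0 * F) 0 b = 0 := by
  unfold co
  rw [X, coeff_monomial_mul, if_neg]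
  rw [le_iff0]; omega

lemma co_X1_succ (F : MvPowerSeries (Fin 2) ℚ) (a b : ℕ) : co (X 1 * F) a (b + 1) = co F a b := by
  unfold co
  have h : (Finsupp.single 0 a + Finsupp.single 1 (b + 1) - Finsupp.single 1 1 : Fin 2 →₀ ℕ) =
      Finsupp.single 0 a + Finsupp.single 1 b := by
    ext i
    fin_cases i <;> simp
  rw [X, coeff_monomial_mul, if_pos ((le_iff1 _ _).mpr (by omega)), one_mul, h]

lemma co_X1_zero (F : MvPowerSeries (Fin 2) ℚ) (a : ℕ) : co (X 1 * F) a 0 = 0 := by
  unfold co
  rw [X, coeff_monomial_mul, if_neg]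
  rw [le_iff1]; omega

lemma co_sub (F G : MvPowerSeries (Fin 2) ℚ) (a b : ℕ) : co (F - G) a b = co F a b - co G a b := by
  simp [co]

lemma co_add (F G : MvPowerSeries (Fin 2) ℚ) (a b : ℕ) : co (F + G) a b = co F a b + co G a b := by
  simp [co]

lemma co_one (a b : ℕ) : co 1 a b = if a = 0 ∧ b = 0 then 1 else 0 := by
  unfold co
  rw [coeff_one]
  congr 1
  simp only [eq_iff_iff]
  constructor
  · intro h
    have h0 := DFunLike.congr_fun h 0
    have h1 := DFunLike.congr_fun h 1
    simp at h0 h1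
    exact ⟨h0, h1⟩
  · rintro ⟨rfl, rfl⟩; simp

lemma genFun_eq : (1 - X 0 * X 1) * (1 - X 0 - X 1) * genFun = (X 1 - X 0) := by
  unfold genFun
  rw [mul_comm, mul_assoc, MvPowerSeries.inv_mul_cancel, mul_one]
  simp

lemma genFun_eq' : genFun - X 0 * genFun - X 1 * genFun - X 0 * (X 1 * genFun) +
    X 0 * (X 0 * (X 1 * genFun)) + X 0 * (X 1 * (X 1 * genFun)) = X 1 * 1 - X 0 * 1 := by
  have := genFun_eq
  linear_combination this

lemma rec_eq (a b : ℕ) : co genFun a b - co (X 0 * genFun) a b - co (X 1 * genFun) a b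
    - co (X 0 * (X 1 * genFun)) a b + co (X 0 * (X 0 * (X 1 * genFun))) a b
    + co (X 0 * (X 1 * (X 1 * genFun))) a b = co (X 1 * 1) a b - co (X 0 * 1) a b := by
  have := congrArg (fun F => co F a b) genFun_eq'
  simpa only [co_sub, co_add] using this

lemma co_gen (a b : ℕ) : co genFun a b = cc a b := rfl

lemma rec22 (a b : ℕ) : cc (a + 2) (b + 2) - cc (a + 1) (b + 2) - cc (a + 2) (b + 1)
    - cc (a + 1) (b + 1) + cc a (b + 1) + cc (a + 1) b = 0 := by
  have := rec_eq (a + 2) (b + 2)
  simp only [co_X0_succ, co_X1_succ, co_gen, co_one] at this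
  simpa using this

lemma c00 : cc 0 0 = 0 := by
  have := rec_eq 0 0
  simpa only [co_X0_zero, co_X1_zero, co_gen, sub_zero, add_zero] using this

lemma c10 : cc 1 0 = -1 := by
  have := rec_eq 1 0
  simp only [co_X0_succ, co_X0_zero, co_X1_zero, co_gen, co_one] at this
  simp [c00] at this
  exact this

lemma ca0 (a : ℕ) : cc (a + 1) 0 = -1 := by
  induction a with
  | zero => exact c10
  | succ a ih =>
    have := rec_eq (a + 2) 0
    simp only [co_X0_succ, co_X1_zero, co_gen, co_one] at this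
    simp at this
    linarith

lemma c01 : cc 0 1 = 1 := by
  have := rec_eq 0 1
  simp only [co_X0_zero, co_X1_succ, co_gen, co_one] at this
  simp [c00] at this
  exact this

lemma c11 : cc 1 1 = 0 := by
  have := rec_eq 1 1
  simp only [co_X0_succ, co_X1_succ, co_X0_zero, co_X1_zero, co_gen, co_one] at this
  simp [c00, c10, c01] at this
  linarith

lemma ca1 (a : ℕ) : cc (a + 2) 1 = -(a + 2 : ℚ) := by
  induction a with
  | zero =>
    have := rec_eq 2 1
    simp only [co_X0_succ, co_X1_succ, co_X0_zero, co_X1_zero, co_gen, co_one] at this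
    have h2 : cc 2 0 = -1 := ca0 1
    simp [c00, c10, c11, h2] at this
    norm_num at this ⊢
    linarith
  | succ a ih =>
    have := rec_eq (a + 3) 1
    simp only [co_X0_succ, co_X1_succ, co_X0_zero, co_X1_zero, co_gen, co_one] at this
    have h1 : cc (a + 3) 0 = -1 := ca0 (a + 2)
    have h2 : cc (a + 2) 0 = -1 := ca0 (a + 1)
    have h3 : cc (a + 1) 0 = -1 := ca0 a
    simp [h1, h2, h3, ih] at this
    push_cast
    linarith

end Run7.h538.Osa
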