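import Pool.Agent.Run7.h538.OsaForm

set_option autoImplicit false

/-! The substitution `x ↦ 1 - x` changes the sign of the form. -/

namespace Run7.h538.Osa

open Finset

lemma c0b (b : ℕ) : cc 0 (b + 1) = 1 := by
  induction b with
  | zero => exact c01
  | succ b ih =>
    have := rec_eq 0 (b + 2)
    simp only [co_X1_succ, co_X0_zero, co_gen, co_one] at this
    simp at this
    linarith

lemma c1b (b : ℕ) : cc 1 (b + 2) = (b + 2 : ℚ) := by
  induction b with
  | zero =>
    have := rec_eq 1 2
    simp only [co_X0_succ, co_X1_succ, co_X0_zero, co_X1_zero, co_gen, co_one] at this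
    have h2 : cc 0 2 = 1 := c0b 1
    simp [c00, c01, c11, h2] at this
    norm_num at this ⊢
    linarith
  | succ b ih =>
    have := rec_eq 1 (b + 3)
    simp only [co_X0_succ, co_X1_succ, co_X0_zero, co_gen, co_one] at this
    have h1 : cc 0 (b + 3) = 1 := c0b (b + 2)
    have h2 : cc 0 (b + 2) = 1 := c0b (b + 1)
    have h3 : cc 0 (b + 1) = 1 := c0b b
    simp [h1, h2, h3, ih] at this
    push_cast
    linarith

theorem cc_skew (a b : ℕ) : cc b a = - cc a b := by
  have key : ∀ N a b : ℕ, a + b ≤ N → cc b a = - cc a b := by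
    intro N
    induction N with
    | zero =>
      intro a b h
      have ha : a = 0 := by omega
      have hb : b = 0 := by omega
      subst ha; subst hb
      rw [c00]; ring
    | succ N ih =>
      intro a b h
      rcases a with _ | _ | a
      · rcases b with _ | b
        · rw [c00]; ring
        · rw [ca0, c0b]
      · rcases b with _ | _ | b
        · rw [c01, c10]; ring
        · rw [c11]; ring
        · rw [ca1, c1b]
      · rcases b with _ | _ | b
        · rw [ca0, c0b]; ring
        · rw [ca1, c1b]; ring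
        · have h1 := rec22 a b
          have h2 := rec22 b a
          have e1 := ih (a + 1) (b + 2) (by omega)
          have e2 := ih (a + 2) (b + 1) (by omega)
          have e3 := ih (a + 1) (b + 1) (by omega)
          have e4 := ih a (b + 1) (by omega)
          have e5 := ih (a + 1) b (by omega)
          linarith
  exact key _ a b le_rfl

/-- binomial transform of a sequence -/
def T (f : ℕ → ℚ) (a : ℕ) : ℚ := ∑ i ∈ range (a + 1), (-1) ^ i * (a.choose i : ℚ) * f i

lemma T_zero (f : ℕ → ℚ) : T f 0 = f 0 := by simp [T]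

lemma T_succ (f : ℕ → ℚ) (a : ℕ) : T f (a + 1) = T f a - T (fun i => f (i + 1)) a := by
  have h1 : T f (a + 1) = f 0 + ∑ i ∈ range (a + 1),
      ((-1) ^ (i + 1) * (a.choose (i + 1) : ℚ) * f (i + 1) -
        (-1) ^ i * (a.choose i : ℚ) * f (i + 1)) := by
    unfold T
    rw [sum_range_succ']
    simp only [pow_zero, Nat.choose_zero_right, Nat.cast_one, one_mul]
    rw [add_comm]
    congr 1
    apply sum_congr rfl
    intro i _
    rw [Nat.choose_succ_succ]
    push_cast
    ring
  have h2 : T f a = f 0 + ∑ i ∈ range (a + 1), (-1) ^ (i + 1) * (a.choose (i + 1) : ℚ) * f (i + 1) := by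
    have : ∑ i ∈ range (a + 2), (-1) ^ i * (a.choose i : ℚ) * f i = T f a := by
      rw [sum_range_succ, Nat.choose_succ_self]
      simp [T]
    rw [← this, sum_range_succ']
    simp only [pow_zero, Nat.choose_zero_right, Nat.cast_one, one_mul]
    rw [add_comm]
  rw [h1, h2, sum_sub_distrib]
  unfold T
  ring

lemma T_add (f g : ℕ → ℚ) (a : ℕ) : T (fun i => f i + g i) a = T f a + T g a := by
  unfold T
  rw [← sum_add_distrib]
  apply sum_congr rfl
  intro i _
  ring

lemma T_sub (f g : ℕ → ℚ) (a : ℕ) : T (fun i => f i - g i) a = T f a - T g a := by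
  unfold T
  rw [← sum_sub_distrib]
  apply sum_congr rfl
  intro i _
  ring

lemma T_mul (x : ℚ) (f : ℕ → ℚ) (a : ℕ) : T (fun i => x * f i) a = x * T f a := by
  unfold T
  rw [mul_sum]
  apply sum_congr rfl
  intro i _
  ring

lemma T_const (x : ℚ) (a : ℕ) : T (fun _ => x) (a + 1) = 0 := by
  rw [T_succ]; ring

lemma T_pow (t : ℚ) (a : ℕ) : T (fun i => t ^ i) a = (1 - t) ^ a := by
  have : (1 - t) ^ a = (-t + 1) ^ a := by ring
  rw [this, add_pow]
  unfold T
  apply sum_congr rfl
  intro i _
  rw [neg_pow, one_pow]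
  ring

/-- the double transform -/
def U (f : ℕ → ℕ → ℚ) (a b : ℕ) : ℚ := T (fun i => T (f i) b) a

lemma U_succ_left (f : ℕ → ℕ → ℚ) (a b : ℕ) :
    U f (a + 1) b = U f a b - U (fun i j => f (i + 1) j) a b := by
  unfold U
  rw [T_succ]

lemma U_succ_right (f : ℕ → ℕ → ℚ) (a b : ℕ) :
    U f a (b + 1) = U f a b - U (fun i j => f i (j + 1)) a b := by
  unfold U
  rw [← T_sub]
  congr 1
  funext i
  rw [T_succ]

/-- transforms of the shifted arrays -/
noncomputable def W (p q a b : ℕ) : ℚ := U (fun i j => cc (i + p) (j + q)) a b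

lemma W_left (p q a b : ℕ) : W p q (a + 1) b = W p q a b - W (p + 1) q a b := by
  unfold W
  rw [U_succ_left]
  congr 2
  funext i j
  rw [show i + 1 + p = i + (p + 1) by ring]

lemma W_right (p q a b : ℕ) : W p q a (b + 1) = W p q a b - W p (q + 1) a b := by
  unfold W
  rw [U_succ_right]
  congr 2
  funext i j
  rw [show j + 1 + q = j + (q + 1) by ring]

lemma U_lin (a b : ℕ) : W 2 2 a b - W 1 2 a b - W 2 1 a b - W 1 1 a b + W 0 1 a b + W 1 0 a b = 0 := by
  unfold W U
  simp only [← T_add, ← T_sub]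
  have : ∀ i j, cc (i + 2) (j + 2) - cc (i + 1) (j + 2) - cc (i + 2) (j + 1) - cc (i + 1) (j + 1)
      + cc (i + 0) (j + 1) + cc (i + 1) (j + 0) = 0 := fun i j => rec22 i j
  simp only [this]
  have h0 : ∀ b, T (fun _ => (0 : ℚ)) b = 0 := by intro b; simp [T]
  simp only [h0]

lemma W_rec (a b : ℕ) : W 0 0 (a + 2) (b + 2) - W 0 0 (a + 1) (b + 2) - W 0 0 (a + 2) (b + 1)
    - W 0 0 (a + 1) (b + 1) + W 0 0 a (b + 1) + W 0 0 (a + 1) b = 0 := by
  have h := U_lin a b
  rw [show a + 2 = a + 1 + 1 by ring, show b + 2 = b + 1 + 1 by ring]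
  simp only [W_left, W_right, zero_add, Nat.reduceAdd]
  linear_combination h

lemma W_a0 (a : ℕ) : W 0 0 a 0 = - cc a 0 := by
  have h0 : ∀ a, W 0 0 a 0 = T (fun i => cc i 0) a := by
    intro a
    unfold W U
    simp only [T_zero, add_zero]
  have hs : (fun i => cc (i + 1) 0) = fun _ => (-1 : ℚ) := by
    funext i; exact ca0 i
  rw [h0]
  induction a with
  | zero => rw [T_zero, c00]; ring
  | succ a ih =>
    rw [T_succ, ih, hs, ca0]
    rcases a with _ | a
    · rw [T_zero, c00]; ring
    · rw [T_const, ca0]; ring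

lemma T_m (a : ℕ) : T (fun i : ℕ => (i : ℚ) + 1) (a + 2) = 0 := by
  have h1 : ∀ a, T (fun i : ℕ => (i : ℚ) + 1) (a + 1) = - T (fun _ => (1 : ℚ)) a := by
    intro a
    rw [T_succ]
    have : (fun i : ℕ => ((i + 1 : ℕ) : ℚ) + 1) = fun i : ℕ => ((i : ℚ) + 1) + 1 := by
      funext i; push_cast; ring
    rw [this, T_add (fun i : ℕ => (i : ℚ) + 1) (fun _ => (1 : ℚ))]
    ring
  rw [h1, T_const]; ring

lemma T_m1 : T (fun i : ℕ => (i : ℚ) + 1) 1 = -1 := by
  simp [T, sum_range_succ]

lemma W_a1 (a : ℕ) : W 0 0 a 1 = - cc a 1 := by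
  have h0 : ∀ a, W 0 0 a 1 = T (fun i => cc i 0 - cc i 1) a := by
    intro a
    unfold W U
    congr 1
    funext i
    rw [T_succ, T_zero, T_zero]
    rfl
  -- the twice shifted sequence
  have hk : ∀ a, T (fun i => cc (i + 1) 0 - cc (i + 1) 1) (a + 1) =
      T (fun i => cc (i + 1) 0 - cc (i + 1) 1) a - T (fun i : ℕ => (i : ℚ) + 1) a := by
    intro a
    rw [T_succ]
    congr 2
    funext i
    rw [ca0, ca1]
    ring
  have k0 : T (fun i => cc (i + 1) 0 - cc (i + 1) 1) 0 = -1 := by
    rw [T_zero, ca0, c11]; ring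
  have k1 : T (fun i => cc (i + 1) 0 - cc (i + 1) 1) 1 = -2 := by
    rw [hk 0, k0, T_zero]; norm_num
  have k2 : ∀ a, T (fun i => cc (i + 1) 0 - cc (i + 1) 1) (a + 2) = -1 := by
    intro a
    induction a with
    | zero => rw [hk 1, k1, T_m1]; norm_num
    | succ a ih => rw [hk (a + 2), ih, T_m]; norm_num
  rw [h0]
  rcases a with _ | _ | a
  · rw [T_zero, c00, c01]; ring
  · rw [T_succ, k0, T_zero, c00, c01, c11]; ring
  · induction a with
    | zero => rw [T_succ, T_succ, k0, k1, T_zero, c00, c01, ca1]; norm_num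
    | succ a ih =>
      rw [T_succ, ih, k2, ca1, ca1]
      push_cast
      ring

lemma W_swap (a b : ℕ) : W 0 0 b a = - W 0 0 a b := by
  unfold W U T
  simp only [add_zero, mul_sum]
  rw [sum_comm, ← sum_neg_distrib]
  apply sum_congr rfl
  intro i _
  rw [← sum_neg_distrib]
  apply sum_congr rfl
  intro j _
  rw [cc_skew i j]
  ring

theorem W_eq (a b : ℕ) : W 0 0 a b = - cc a b := by
  have key : ∀ N a b : ℕ, a + b ≤ N → W 0 0 a b = - cc a b := by
    intro N
    induction N with
    | zero =>
      intro a b h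
      have ha : a = 0 := by omega
      have hb : b = 0 := by omega
      subst ha; subst hb
      exact W_a0 0
    | succ N ih =>
      intro a b h
      rcases b with _ | _ | b
      · exact W_a0 a
      · exact W_a1 a
      · rcases a with _ | _ | a
        · rw [W_swap, W_a0, cc_skew 0 (b + 1 + 1)]; ring
        · rw [W_swap, W_a1, cc_skew 1 (b + 1 + 1)]; ring
        · have h1 := rec22 a b
          have h2 := W_rec a b
          have e1 := ih (a + 1) (b + 2) (by omega)
          have e2 := ih (a + 2) (b + 1) (by omega)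
          have e3 := ih (a + 1) (b + 1) (by omega)
          have e4 := ih a (b + 1) (by omega)
          have e5 := ih (a + 1) b (by omega)
          linarith
  exact key _ a b le_rfl

/-- The double binomial transform changes the sign of the array. -/
theorem U_cc (a b : ℕ) : ∑ i ∈ range (a + 1), ∑ j ∈ range (b + 1),
    ((-1) ^ i * (a.choose i : ℚ)) * ((-1) ^ j * (b.choose j : ℚ)) * cc i j = - cc a b := by
  rw [← W_eq]
  unfold W U T
  simp only [add_zero, mul_sum]
  apply sum_congr rfl
  intro i _
  apply sum_congr rfl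
  intro j _
  ring

end Run7.h538.Osa
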